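import Pool.Agent.Y253.TR.Ineq

/-!
# The closed cone of the conditionally finite-dimensional tracial states
-/

set_option autoImplicit false

open MeasureTheory Filter Topology Finset
open scoped ComplexOrder ComplexConjugate

namespace Pool.Agent.Y253.TR

open Pool.Agent.W763.Tr Pool.Agent.TH654.FC Pool.Agent.Y315.LV

variable {G : Subgroup (Equiv.Perm ℚ)} {s2 s3 t : Equiv.Perm ℚ} (hs2 : ∀ x, s2 x = 2 * x)
    (hs3 : ∀ x, s3 x = 3 * x) (ht : ∀ x, t x = x + 1)
    (hG : G = Subgroup.closure {s2, s3, t})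

include hs2 hs3 ht hG

lemma exists_FD : ∃ ψ ∈ TS G, FD ψ := by
  have hmp : ∀ p : ℕ, MeasurePreserving (fun x : UnitAddCircle => p • x)
      (Measure.dirac (0 : UnitAddCircle)) (Measure.dirac 0) := by
    intro p
    refine ⟨(continuous_nsmul p).measurable, ?_⟩
    rw [Measure.map_dirac' (continuous_nsmul p).measurable]
    simp
  obtain ⟨ψ, h1, hcl, hpd, hfd, -⟩ := findim_of_measure hs2 hs3 ht hG
    (Measure.dirac (0 : UnitAddCircle)) (hmp 2) (hmp 3) ⟨{0}, by
      rw [Measure.dirac_apply' _ (by measurability)]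
      simp⟩
  exact ⟨ψ, ⟨h1, hcl, hpd⟩, hfd⟩

/-- **The cone theorem.** -/
theorem cone {φ : G → ℂ} (hφ : φ ∈ TS G) (F : Finset G) (h1F : (1 : G) ∉ F) (s : ℝ) {ε : ℝ}
    (hε : 0 < ε) : ∃ T : ℝ, 0 ≤ T ∧ ∃ ψ ∈ TS G, FD ψ ∧ ∀ g ∈ F, ‖(s : ℂ) * φ g - T * ψ g‖ < ε := by
  classical
  set C : Set (F → ℂ) := {w | ∃ T : ℝ, 0 ≤ T ∧ ∃ ψ ∈ TS G, FD ψ ∧ w = fun g : F => (T : ℂ) * ψ g}
    with hC
  set v : F → ℂ := fun g => (s : ℂ) * φ g with hv
  obtain ⟨ψ0, hψ0, hfd0⟩ := exists_FD hs2 hs3 ht hG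
  have h0C : (0 : F → ℂ) ∈ C := ⟨0, le_rfl, ψ0, hψ0, hfd0, by funext g; simp⟩
  have hconv : Convex ℝ C := by
    rintro w1 ⟨T1, hT1, ψ1, hψ1, hf1, rfl⟩ w2 ⟨T2, hT2, ψ2, hψ2, hf2, rfl⟩ a b ha hb hab
    by_cases hT : a * T1 + b * T2 = 0
    · have e1 : a * T1 = 0 := by
        have := mul_nonneg ha hT1
        have := mul_nonneg hb hT2
        linarith
      have e2 : b * T2 = 0 := by linarith
      refine ⟨0, le_rfl, ψ0, hψ0, hfd0, ?_⟩
      funext g
      simp only [Pi.add_apply, Pi.smul_apply, Complex.real_smul]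
      rw [← mul_assoc, ← mul_assoc, ← Complex.ofReal_mul, ← Complex.ofReal_mul, e1, e2]
      simp
    · have hTp : 0 < a * T1 + b * T2 :=
        lt_of_le_of_ne (add_nonneg (mul_nonneg ha hT1) (mul_nonneg hb hT2)) (Ne.symm hT)
      refine ⟨a * T1 + b * T2, hTp.le, (a * T1 / (a * T1 + b * T2)) • ψ1 +
        (b * T2 / (a * T1 + b * T2)) • ψ2, convex_TS hψ1 hψ2 (by positivity) (by positivity) ?_,
        hf1.add hf2 _ _, ?_⟩
      · field_simp
      · funext g
        simp only [Pi.add_apply, Pi.smul_apply, Complex.real_smul]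
        have hTc : ((a * T1 + b * T2 : ℝ) : ℂ) ≠ 0 := by exact_mod_cast hT
        push_cast at hTc ⊢
        field_simp
  have hmem : v ∈ closure C := by
    by_contra hcon
    obtain ⟨f, u, hfu, huv⟩ := geometric_hahn_banach_closed_point hconv.closure isClosed_closure
      hcon
    have hu0 : 0 < u := by
      have := hfu 0 (subset_closure h0C)
      rwa [map_zero] at this
    -- the functional in coordinates
    set α : G → ℝ := fun g => if h : g ∈ F then f (Pi.single ⟨g, h⟩ 1) else 0 with hα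
    set β : G → ℝ := fun g => if h : g ∈ F then f (Pi.single ⟨g, h⟩ Complex.I) else 0 with hβ
    have hf : ∀ ψ : G → ℂ, f (fun g => ψ g) = La F α β ψ := by
      intro ψ
      have e1 : (fun g : F => ψ g) = ∑ g : F, ((ψ g).re • (Pi.single g (1 : ℂ) : F → ℂ) +
          (ψ g).im • (Pi.single g Complex.I : F → ℂ)) := by
        funext g
        rw [Finset.sum_apply]
        rw [Finset.sum_eq_single g]
        · simp [Complex.re_add_im]
        · intro b _ hb
          simp [Pi.single_eq_of_ne hb.symm]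
        · intro h; exact absurd (mem_univ g) h
      rw [e1, map_sum]
      unfold La
      rw [← Finset.sum_coe_sort F fun g => α g * (ψ g).re + β g * (ψ g).im]
      refine sum_congr rfl fun g _ => ?_
      rw [map_add, map_smul, map_smul, smul_eq_mul, smul_eq_mul]
      simp only [hα, hβ]
      rw [dif_pos g.2, dif_pos g.2]
      ring
    have hneg : ∀ ψ ∈ TS G, FD ψ → La F α β ψ ≤ 0 := by
      intro ψ hψ hfdψ
      by_contra hpos
      push Not at hpos
      have h3 := hfu (fun g => ((u / La F α β ψ : ℝ) : ℂ) * ψ g)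
        (subset_closure ⟨u / La F α β ψ, by positivity, ψ, hψ, hfdψ, rfl⟩)
      have e2 : (fun g : F => ((u / La F α β ψ : ℝ) : ℂ) * ψ g) =
          fun g : F => ((u / La F α β ψ) • ψ) g := by
        funext g; simp [Complex.real_smul]
      rw [e2, hf, La_smul, div_mul_cancel₀ _ hpos.ne'] at h3
      exact lt_irrefl _ h3
    have hz := all_zero' hs2 hs3 ht hG h1F hneg φ hφ
    have e3 : v = fun g : F => (s • φ) g := by
      funext g; simp [hv, Complex.real_smul]
    rw [e3, hf, La_smul, hz, mul_zero] at huv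
    linarith
  obtain ⟨w, ⟨T, hT, ψ, hψ, hfd, rfl⟩, hdist⟩ := Metric.mem_closure_iff.1 hmem ε hε
  refine ⟨T, hT, ψ, hψ, hfd, fun g hg => ?_⟩
  have h5 := (dist_pi_lt_iff hε).1 hdist ⟨g, hg⟩
  rwa [dist_eq_norm] at h5

end Pool.Agent.Y253.TR
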