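import Pool.Agent.Y253.TR.Mom
import Pool.Agent.TH463.UQ.Trace

/-!
# Summable moments characterise the conditionally finite-dimensional extreme traces
-/

set_option autoImplicit false

open MeasureTheory Filter Topology Finset
open scoped ComplexOrder ComplexConjugate

namespace Pool.Agent.Y253.TR

open Pool.Agent.W763.Tr Pool.Agent.TH654.FC Pool.Agent.Y315.SC

section

variable {H : Type*} [Group H]

/-- the element of the group ring of `ℤ` -/
noncomputable def dz (Q : ℕ) (s : ℤ) (c : ℂ) (L : ℕ) : MonoidAlgebra ℂ (Multiplicative ℤ) :=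
  (L : ℂ)⁻¹ • ∑ i ∈ range L, MonoidAlgebra.of ℂ _ (Multiplicative.ofAdd (s * (Q : ℤ) ^ i)) - c • 1

lemma smul_eq (g : H) (a : ℂ) (P : MonoidAlgebra ℂ (Multiplicative ℤ)) :
    rh g (a • P) = a • rh g P := by
  unfold rh
  simp [MonoidAlgebra.mapDomain_smul]

lemma rh_dz_pos (Q : ℕ) (g : H) (c : ℂ) (L : ℕ) : rh g (dz Q 1 c L) = dev Q g c L := by
  unfold dz dev
  rw [map_sub, smul_eq, smul_eq, map_sum, map_one]
  congr 2
  refine sum_congr rfl fun i _ => ?_
  rw [MonoidAlgebra.of_apply, rh_single, MonoidAlgebra.of_apply, toAdd_ofAdd, one_mul]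
  congr 1
  exact_mod_cast zpow_natCast g (Q ^ i)

lemma rh_dz_neg (Q : ℕ) (g : H) (c : ℂ) (L : ℕ) : rh g (dz Q (-1) c L) = dev Q g⁻¹ c L := by
  unfold dz dev
  rw [map_sub, smul_eq, smul_eq, map_sum, map_one]
  congr 2
  refine sum_congr rfl fun i _ => ?_
  rw [MonoidAlgebra.of_apply, rh_single, MonoidAlgebra.of_apply, toAdd_ofAdd, neg_mul, one_mul,
    zpow_neg, inv_pow]
  congr 2
  exact_mod_cast zpow_natCast g (Q ^ i)

lemma ev_dz_pos (Q : ℕ) (n : ℤ) (x : UnitAddCircle) (c : ℂ) (L : ℕ) :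
    ev n x (dz Q 1 c L) = Av Q n L x - c := by
  unfold dz Av
  rw [map_sub, map_smul, map_smul, map_sum, map_one, smul_eq_mul, smul_eq_mul, mul_one]
  congr 2
  refine sum_congr rfl fun i _ => ?_
  rw [ev_of, toAdd_ofAdd, one_mul, fourier_apply, fourier_apply, mul_smul]
  congr 2

lemma ev_dz_neg (Q : ℕ) (n : ℤ) (x : UnitAddCircle) (c : ℂ) (L : ℕ) :
    ev n x (dz Q (-1) (star c) L) = conj (Av Q n L x - c) := by
  unfold dz Av
  rw [map_sub, map_smul, map_smul, map_sum, map_one, smul_eq_mul, smul_eq_mul, mul_one, map_sub,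
    map_mul, map_sum, map_inv₀, Complex.conj_natCast, Complex.star_def]
  congr 2
  refine sum_congr rfl fun i _ => ?_
  rw [ev_of, toAdd_ofAdd, ← fourier_neg, fourier_apply, fourier_apply]
  congr 2
  rw [← natCast_zsmul, ← mul_smul]
  congr 1
  push_cast; ring

/-- **The moments.** -/
lemma moment {φ : H → ℂ} {g : H} {n : ℤ} {μ : Measure UnitAddCircle} [IsProbabilityMeasure μ]
    (h : ∀ z : ℤ, φ (g ^ z) = ∫ x, (fourier (n * z) x : ℂ) ∂μ) (Q : ℕ) (c : ℂ) (L k : ℕ) :
    ext φ ((dev Q g c L * dev Q g⁻¹ (star c) L) ^ k) =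
      ((∫ x, ‖Av Q n L x - c‖ ^ (2 * k) ∂μ : ℝ) : ℂ) := by
  rw [← rh_dz_pos, ← rh_dz_neg, ← map_mul, ← map_pow, ext_rh h, ← integral_complex_ofReal]
  refine integral_congr_ae (Filter.Eventually.of_forall fun x => ?_)
  simp only [map_pow, map_mul, ev_dz_pos, ev_dz_neg]
  rw [Complex.mul_conj, Complex.normSq_eq_norm_sq, pow_mul]
  push_cast; rfl

end

variable {G : Subgroup (Equiv.Perm ℚ)}

/-- **The theorem.** -/
theorem moments {s2 s3 t : Equiv.Perm ℚ} (hs2 : ∀ x, s2 x = 2 * x)
    (hs3 : ∀ x, s3 x = 3 * x) (ht : ∀ x, t x = x + 1)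
    (hG : G = Subgroup.closure {s2, s3, t}) {φ : G → ℂ} (hφ : φ ∈ (TS G).extremePoints ℝ)
    {Q : ℕ} (hQ2 : 2 ≤ Q) (hQ : Q % 2 = 1 ∨ Q % 3 = 1) :
    FD φ ↔ ∃ g : G, g ≠ 1 ∧ (∃ r : ℚ, ∀ x : ℚ, (g : Equiv.Perm ℚ) x = x + r) ∧
      ∃ c : ℂ, c ≠ 0 ∧ ∃ k : ℕ, Summable fun L : ℕ =>
        ext φ ((dev Q g c L * dev Q g⁻¹ (star c) L) ^ k) := by
  obtain ⟨h1, hcl, hpd⟩ := hφ.1
  obtain ⟨τ, S6, μ, D⟩ := data_of hs2 hs3 ht hG h1 hcl hpd
  have hprob := D.prob
  constructor
  · intro hfd
    obtain ⟨M, hM1, hM⟩ := exists_kernel D.hτ D.hμ D.h2 hfd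
    refine ⟨τ M, ?_, ⟨M, fun x => by rw [D.hτ]; simp⟩, 1, one_ne_zero, 1, ?_⟩
    · intro h
      have h5 := D.hτ M 0
      rw [h] at h5
      simp only [OneMemClass.coe_one, Equiv.Perm.coe_one, id_eq, zero_add] at h5
      have h6 : (M : ℤ) = 0 := by exact_mod_cast h5.symm
      omega
    · have hz : ∀ z : ℤ, φ (τ M ^ z) = ∫ x, (fourier ((M : ℤ) * z) x : ℂ) ∂μ := by
        intro z
        rw [D.hμ]
        congr 1
        have hpow : ∀ n : ℕ, ∀ m : ℤ, τ m ^ n = τ (m * n) := by
          intro n m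
          induction n with
          | zero => rw [pow_zero, Nat.cast_zero, mul_zero, tau_zero D.hτ]
          | succ n ih => rw [pow_succ, ih, tau_add D.hτ]; congr 1; push_cast; ring
        rcases z.eq_nat_or_neg with ⟨n, rfl | rfl⟩
        · rw [zpow_natCast, hpow]
        · rw [zpow_neg, zpow_natCast, hpow, tau_inv D.hτ]; congr 1; ring
      simp_rw [moment hz]
      have hae : ∀ j : ℤ, ∀ᵐ x ∂μ, (fourier ((M : ℤ) * j) x : ℂ) = 1 := by
        intro j
        have hi : Integrable (fun x : UnitAddCircle => (fourier ((M : ℤ) * j) x : ℂ)) μ :=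
          (by fun_prop : Continuous (fun x : UnitAddCircle =>
            (fourier ((M : ℤ) * j) x : ℂ))).integrable_of_hasCompactSupport
              (HasCompactSupport.of_compactSpace _)
        have h2 : ∫ x, (1 - (fourier ((M : ℤ) * j) x : ℂ).re) ∂μ = 0 := by
          have hir : Integrable (fun x : UnitAddCircle => (fourier ((M : ℤ) * j) x : ℂ).re) μ :=
            hi.re
          rw [integral_sub (integrable_const _) hir]
          have h3 : ∫ x, (fourier ((M : ℤ) * j) x : ℂ).re ∂μ = 1 := by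
            have h4 := integral_re hi
            simp only [RCLike.re_to_complex] at h4
            rw [h4, D.hμ, hM]; simp
          rw [h3]; simp
        have hnn : ∀ x : UnitAddCircle, 0 ≤ 1 - (fourier ((M : ℤ) * j) x : ℂ).re := fun x => by
          have h5 := (Complex.re_le_norm (fourier ((M : ℤ) * j) x : ℂ)).trans
            (norm_fourier_eq _ _).le
          linarith
        rw [integral_eq_zero_iff_of_nonneg hnn ((integrable_const _).sub hi.re)] at h2
        filter_upwards [h2] with x hx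
        have h6 : (fourier ((M : ℤ) * j) x : ℂ).re = 1 := by
          simp only [Pi.zero_apply] at hx
          linarith
        have h7 : ‖(fourier ((M : ℤ) * j) x : ℂ)‖ = 1 := norm_fourier_eq _ _
        have h8 : (fourier ((M : ℤ) * j) x : ℂ).im = 0 := by
          have h9 := Complex.sq_norm (fourier ((M : ℤ) * j) x : ℂ)
          rw [h7, Complex.normSq_apply, h6] at h9
          nlinarith
        exact Complex.ext (by simpa using h6) (by simpa using h8)
      have hae' : ∀ᵐ x ∂μ, ∀ j : ℤ, (fourier ((M : ℤ) * j) x : ℂ) = 1 := ae_all_iff.2 hae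
      refine summable_of_ne_finset_zero (s := {0}) fun L hL => ?_
      have hL0 : (L : ℂ) ≠ 0 := by
        have : L ≠ 0 := by simpa using hL
        exact_mod_cast this
      have : ∫ x, ‖Av Q (M : ℤ) L x - 1‖ ^ (2 * 1) ∂μ = 0 := by
        refine (integral_congr_ae (g := fun _ => (0 : ℝ)) ?_).trans (by simp)
        filter_upwards [hae'] with x hx
        have h10 : Av Q (M : ℤ) L x = 1 := by
          unfold Av
          have h11 : ∀ i ∈ range L, (fourier (M : ℤ) ((Q ^ i) • x) : ℂ) = 1 := by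
            intro i _
            rw [← hx ((Q ^ i : ℕ) : ℤ), fourier_apply, fourier_apply, mul_smul]
            simp only [natCast_zsmul]
          rw [sum_congr rfl h11]
          simp [hL0]
        rw [h10]; simp
      rw [this]; simp
  · rintro ⟨g, hg1, ⟨r, hg⟩, c, hc, k, hsum⟩
    rcases Pool.Agent.TH463.UQ.finite_or_atomless D hφ with h | hat
    · exact h
    · exfalso
      obtain ⟨n, k', hr⟩ := D.six hg
      have hn : n ≠ 0 := by
        rintro rfl
        apply hg1
        apply Subtype.ext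
        apply Equiv.ext
        intro x
        rw [hg, hr]; simp
      have hz : ∀ z : ℤ, φ (g ^ z) = ∫ x, (fourier (n * z) x : ℂ) ∂μ := by
        intro z
        rw [D.hμ]
        refine phi_trans D.hτ D.hcl S6 D.hS6 _ (n * z) k' fun x => ?_
        have hpow : ∀ (m : ℕ) (x : ℚ), ((g ^ m : G) : Equiv.Perm ℚ) x = x + m * r := by
          intro m
          induction m with
          | zero => intro x; simp
          | succ m ih =>
            intro x
            rw [pow_succ, Subgroup.coe_mul, Equiv.Perm.mul_apply, hg, ih]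
            push_cast; ring
        rcases z.eq_nat_or_neg with ⟨m, rfl | rfl⟩
        · rw [zpow_natCast, hpow, hr]; push_cast; ring
        · rw [zpow_neg, zpow_natCast, Subgroup.coe_inv, Equiv.Perm.inv_eq_iff_eq, hpow, hr]
          push_cast; ring
      simp_rw [moment hz] at hsum
      have hsum' : Summable fun L : ℕ => ∫ x, ‖Av Q n L x - c‖ ^ (2 * k) ∂μ := by
        exact_mod_cast hsum
      -- the prime
      obtain ⟨p, hp, hQp, hip⟩ : ∃ p : ℕ, p.Prime ∧ Q ≡ 1 [MOD p] ∧
          MeasurePreserving (fun x : UnitAddCircle => p • x) μ μ := by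
        rcases hQ with h | h
        · exact ⟨2, Nat.prime_two, h, D.mp2⟩
        · exact ⟨3, Nat.prime_three, h, D.mp3⟩
      have hpR : (1 : ℝ) < p := by exact_mod_cast hp.one_lt
      have hs0 : 0 < Real.sin (Real.pi / p) := by
        refine Real.sin_pos_of_pos_of_lt_pi (by positivity) ?_
        rw [div_lt_iff₀ (by linarith)]
        nlinarith [Real.pi_pos]
      have hc0 : 0 < ‖c‖ := norm_pos_iff.2 hc
      set u : ℝ := Real.sin (Real.pi / p) * ‖c‖ / 2 with hu
      have hu0 : 0 < u := by positivity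
      refine averages_fixed hp hQ2 hQp μ hat hip hn hc (t := u)
        (by rw [hu]; nlinarith [mul_pos hs0 hc0]) ?_
      refine Summable.of_nonneg_of_le (fun L => measureReal_nonneg) (fun L => ?_)
        (hsum'.mul_left ((u ^ (2 * k))⁻¹))
      have hcont : Continuous fun x : UnitAddCircle => ‖Av Q n L x - c‖ ^ (2 * k) :=
        (((continuous_Av Q n L).sub continuous_const).norm).pow _
      have hint : Integrable (fun x : UnitAddCircle => ‖Av Q n L x - c‖ ^ (2 * k)) μ :=
        hcont.integrable_of_hasCompactSupport (HasCompactSupport.of_compactSpace _)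
      have hmark := mul_meas_ge_le_integral_of_nonneg (μ := μ)
        (f := fun x : UnitAddCircle => ‖Av Q n L x - c‖ ^ (2 * k))
        (Filter.Eventually.of_forall fun x => by positivity) hint (u ^ (2 * k))
      have hsub : μ.real {x | u < ‖Av Q n L x - c‖} ≤
          μ.real {x | u ^ (2 * k) ≤ ‖Av Q n L x - c‖ ^ (2 * k)} := by
        refine measureReal_mono (fun x hx => ?_) (measure_ne_top _ _)
        exact pow_le_pow_left₀ hu0.le (le_of_lt hx) _
      have hup : 0 < u ^ (2 * k) := by positivity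
      rw [le_inv_mul_iff₀ hup]
      exact (mul_le_mul_of_nonneg_left hsub hup.le).trans hmark

end Pool.Agent.Y253.TR
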