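import Pool.Agent.Y253.TR.Val

/-!
# The region of the values of the tracial states at a translation
-/

set_option autoImplicit false

open MeasureTheory Filter Topology Finset
open scoped ComplexOrder ComplexConjugate

namespace Pool.Agent.Y253.TR

open Pool.Agent.W763.Tr Pool.Agent.TH654.FC Pool.Agent.Y315.FC

/-- the values attained by conditionally finite-dimensional traces -/
lemma attained {s2 s3 t : Equiv.Perm ℚ} (hs2 : ∀ x, s2 x = 2 * x)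
    (hs3 : ∀ x, s3 x = 3 * x) (ht : ∀ x, t x = x + 1) {G : Subgroup (Equiv.Perm ℚ)}
    (hG : G = Subgroup.closure {s2, s3, t}) {n : ℤ} {c : ℂ} (h : V n c) {g : G} {k : ℕ}
    (hg : ∀ x, (g : Equiv.Perm ℚ) x = x + n / 6 ^ k) :
    ∃ φ : G → ℂ, (φ 1 = 1 ∧ (∀ g h : G, φ (h * g * h⁻¹) = φ g) ∧ PD φ) ∧
      FiniteDimensional ℂ (Submodule.span ℂ {F : G → ℂ | ∃ n : G,
        (∃ r : ℚ, ∀ x : ℚ, (n : Equiv.Perm ℚ) x = x + r) ∧ F = fun x => φ (n * x)}) ∧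
      φ g = c := by
  obtain ⟨μ, hμ, m2, m3, ⟨M, hM1, hM⟩, hc⟩ := h
  obtain ⟨φ, h1, hcl, hpd, hv, -⟩ := trace_of_measure hs2 hs3 ht hG μ m2 m3
  refine ⟨φ, ⟨h1, hcl, hpd⟩, ?_, ?_⟩
  · obtain ⟨τ, S6, ν, D⟩ := data_of hs2 hs3 ht hG h1 hcl hpd
    refine finite_dim D.hτ D.h1 D.hcl D.hpd S6 D.hS6 D.hform D.h2 D.h3 ⟨M, hM1, fun n => ?_⟩
    rw [hv (τ (M * n)) (M * n) 0 fun x => by rw [D.hτ]; simp]
    exact hM n
  · rw [hv g n k hg, hc]

lemma re_mul_exp (c : ℂ) (θ : ℝ) : (c * Complex.exp (-θ * Complex.I)).re =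
    Real.cos θ * c.re + Real.sin θ * c.im := by
  have h2 : Complex.exp (-θ * Complex.I) = (Real.cos θ : ℂ) - (Real.sin θ : ℂ) * Complex.I := by
    have : (-(θ : ℂ)) * Complex.I = ((-θ : ℝ) : ℂ) * Complex.I := by push_cast; ring
    rw [this, Complex.exp_mul_I, ← Complex.ofReal_cos, ← Complex.ofReal_sin, Real.cos_neg,
      Real.sin_neg]
    push_cast
    ring
  rw [h2]
  simp only [Complex.mul_re, Complex.sub_re, Complex.sub_im, Complex.ofReal_re,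
    Complex.ofReal_im, Complex.I_re, Complex.I_im, Complex.mul_im]
  ring

/-- the greatest value is attained -/
lemma exists_V (θ : ℝ) : ∃ c : ℂ, V 1 c ∧ Real.cos θ * c.re + Real.sin θ * c.im =
    max (-Real.cos θ / 4) ((Real.sqrt 23 * |Real.sin θ| - Real.cos θ) / 22) := by
  rcases le_total (-Real.cos θ / 4) ((Real.sqrt 23 * |Real.sin θ| - Real.cos θ) / 22) with h | h
  · rw [max_eq_right h]
    obtain ⟨c, hc, hre, him⟩ := V_tw
    by_cases hsg : Real.sin θ * c.im = |Real.sin θ| * |c.im|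
    · refine ⟨c, hc, ?_⟩
      rw [hsg, hre, him]; ring
    · refine ⟨conj c, V_conj hc, ?_⟩
      rw [Complex.conj_re, Complex.conj_im]
      have h5 : Real.sin θ * -c.im = |Real.sin θ| * |c.im| := by
        rw [← abs_mul] at hsg ⊢
        rcases abs_cases (Real.sin θ * c.im) with ⟨h, -⟩ | ⟨h, -⟩
        · exact absurd h.symm hsg
        · rw [h]; ring
      rw [h5, hre, him]; ring
  · rw [max_eq_left h]
    refine ⟨-1 / 4, V_five, ?_⟩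
    have e : (-1 / 4 : ℂ) = ((-1 / 4 : ℝ) : ℂ) := by push_cast; ring
    rw [e, Complex.ofReal_re, Complex.ofReal_im]
    ring

/-- the greatest value is an upper bound -/
lemma upper {c : ℂ} (hc : |c.im| ≤ Real.sqrt 23 / 22 ∧
    -1 / 4 + 9 * Real.sqrt 23 / 46 * |c.im| ≤ c.re) {θ : ℝ} (hθ : Real.cos θ ≤ 0) :
    Real.cos θ * c.re + Real.sin θ * c.im ≤
      max (-Real.cos θ / 4) ((Real.sqrt 23 * |Real.sin θ| - Real.cos θ) / 22) := by
  obtain ⟨r1, r2⟩ := hc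
  have hs : Real.sqrt 23 * Real.sqrt 23 = 23 := Real.mul_self_sqrt (by norm_num)
  have h1 : Real.sin θ * c.im ≤ |Real.sin θ| * |c.im| := by
    rw [← abs_mul]; exact le_abs_self _
  have h4 : Real.cos θ * c.re ≤
      Real.cos θ * (-1 / 4 + 9 * Real.sqrt 23 / 46 * |c.im|) :=
    mul_le_mul_of_nonpos_left r2 hθ
  have key : Real.cos θ * c.re + Real.sin θ * c.im ≤
      -Real.cos θ / 4 + (|Real.sin θ| + 9 * Real.sqrt 23 / 46 * Real.cos θ) * |c.im| := by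
    have : Real.cos θ * (-1 / 4 + 9 * Real.sqrt 23 / 46 * |c.im|) + |Real.sin θ| * |c.im| =
      -Real.cos θ / 4 + (|Real.sin θ| + 9 * Real.sqrt 23 / 46 * Real.cos θ) * |c.im| := by ring
    linarith
  rcases le_total 0 (|Real.sin θ| + 9 * Real.sqrt 23 / 46 * Real.cos θ) with h | h
  · refine key.trans (le_trans ?_ (le_max_right _ _))
    have h5 := mul_le_mul_of_nonneg_left r1 h
    have h6 : -Real.cos θ / 4 + (|Real.sin θ| + 9 * Real.sqrt 23 / 46 * Real.cos θ) *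
        (Real.sqrt 23 / 22) = (Real.sqrt 23 * |Real.sin θ| - Real.cos θ) / 22 := by
      have : (|Real.sin θ| + 9 * Real.sqrt 23 / 46 * Real.cos θ) * (Real.sqrt 23 / 22) =
        |Real.sin θ| * Real.sqrt 23 / 22 + 9 * (Real.sqrt 23 * Real.sqrt 23) / (46 * 22) *
          Real.cos θ := by ring
      rw [this, hs]
      ring
    linarith
  · refine key.trans (le_trans ?_ (le_max_left _ _))
    have h5 : (|Real.sin θ| + 9 * Real.sqrt 23 / 46 * Real.cos θ) * |c.im| ≤ 0 :=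
      mul_nonpos_of_nonpos_of_nonneg h (abs_nonneg _)
    linarith

/-- **The theorem.** -/
theorem value_region {s2 s3 t : Equiv.Perm ℚ} (hs2 : ∀ x, s2 x = 2 * x)
    (hs3 : ∀ x, s3 x = 3 * x) (ht : ∀ x, t x = x + 1) {G : Subgroup (Equiv.Perm ℚ)}
    (hG : G = Subgroup.closure {s2, s3, t}) {g : G} (hg1 : g ≠ 1)
    (hg : ∃ r : ℚ, ∀ x : ℚ, (g : Equiv.Perm ℚ) x = x + r) :
    (∀ φ ∈ {ψ : G → ℂ | ψ 1 = 1 ∧ (∀ g h : G, ψ (h * g * h⁻¹) = ψ g) ∧ PD ψ},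
      |(φ g).im| ≤ Real.sqrt 23 / 22 ∧
      -1 / 4 + 9 * Real.sqrt 23 / 46 * |(φ g).im| ≤ (φ g).re) ∧
    ∀ θ : ℝ, Real.cos θ ≤ 0 →
      ∃ φ ∈ {ψ : G → ℂ | ψ 1 = 1 ∧ (∀ g h : G, ψ (h * g * h⁻¹) = ψ g) ∧ PD ψ},
        FiniteDimensional ℂ (Submodule.span ℂ {F : G → ℂ | ∃ n : G,
          (∃ r : ℚ, ∀ x : ℚ, (n : Equiv.Perm ℚ) x = x + r) ∧ F = fun x => φ (n * x)}) ∧
        (φ g * Complex.exp (-θ * Complex.I)).re =
          max (-Real.cos θ / 4) ((Real.sqrt 23 * |Real.sin θ| - Real.cos θ) / 22) ∧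
        ∀ ψ ∈ {ψ : G → ℂ | ψ 1 = 1 ∧ (∀ g h : G, ψ (h * g * h⁻¹) = ψ g) ∧ PD ψ},
          (ψ g * Complex.exp (-θ * Complex.I)).re ≤ (φ g * Complex.exp (-θ * Complex.I)).re := by
  obtain ⟨r, hr⟩ := hg
  have hform : ∀ g : G, ∃ (a b : ℤ) (r : ℚ), Six r ∧
      ∀ x, (g : Equiv.Perm ℚ) x = 2 ^ a * 3 ^ b * x + r := fun g =>
    form hs2 hs3 ht g (by rw [← hG]; exact g.2)
  obtain ⟨n, k, hnk⟩ : Six r := by
    obtain ⟨a, b, r', hr', h⟩ := hform g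
    have e0 := h 0
    rw [hr, mul_zero, zero_add, zero_add] at e0
    rw [e0]; exact hr'
  have hgn : ∀ x, (g : Equiv.Perm ℚ) x = x + n / 6 ^ k := fun x => by rw [hr, hnk]
  have hn : n ≠ 0 := by
    rintro rfl
    apply hg1
    apply Subtype.ext
    apply Equiv.ext
    intro x
    rw [hgn]; simp
  have hb : ∀ φ ∈ {ψ : G → ℂ | ψ 1 = 1 ∧ (∀ g h : G, ψ (h * g * h⁻¹) = ψ g) ∧ PD ψ},
      |(φ g).im| ≤ Real.sqrt 23 / 22 ∧
      -1 / 4 + 9 * Real.sqrt 23 / 46 * |(φ g).im| ≤ (φ g).re := by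
    rintro φ ⟨h1, hcl, hpd⟩
    obtain ⟨τ, S6, μ, D⟩ := data_of hs2 hs3 ht hG h1 hcl hpd
    have := D.prob
    rw [phi_trans D.hτ D.hcl S6 D.hS6 g n k hgn, ← D.hμ]
    exact bounds D.mp2 D.mp3 n
  refine ⟨hb, fun θ hθ => ?_⟩
  obtain ⟨c, hc, hcv⟩ := exists_V θ
  obtain ⟨φ, hφ, hfd, hφg⟩ := attained hs2 hs3 ht hG (V_int hn hc) hgn
  refine ⟨φ, hφ, hfd, ?_, fun ψ hψ => ?_⟩
  · rw [hφg, re_mul_exp, hcv]
  · rw [hφg, re_mul_exp, re_mul_exp, hcv]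
    exact upper (hb ψ hψ) hθ

end Pool.Agent.Y253.TR
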