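import Pool.Agent.Y253.TR.Dict

/-!
# The compact convex set of the tracial states
-/

set_option autoImplicit false

open MeasureTheory Filter Topology Finset
open scoped ComplexOrder ComplexConjugate

namespace Pool.Agent.Y253.TR

open Pool.Agent.W763.Tr Pool.Agent.TH654.FC

variable {G : Subgroup (Equiv.Perm ℚ)}

/-- the tracial states -/
def TS (G : Subgroup (Equiv.Perm ℚ)) : Set (G → ℂ) :=
  {ψ : G → ℂ | ψ 1 = 1 ∧ (∀ g h : G, ψ (h * g * h⁻¹) = ψ g) ∧ PD ψ}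

/-- conditional finite-dimensionality -/
def FD (φ : G → ℂ) : Prop := FiniteDimensional ℂ (Submodule.span ℂ {F : G → ℂ | ∃ n : G,
  (∃ r : ℚ, ∀ x : ℚ, (n : Equiv.Perm ℚ) x = x + r) ∧ F = fun x => φ (n * x)})

lemma PD.norm_le {φ : G → ℂ} (h : PD φ) (h1 : φ 1 = 1) (g : G) : ‖φ g‖ ≤ 1 := by
  have h2 := h.family (univ : Finset (Fin 2)) ![1, g] ![1, -star (φ g)]
  simp only [Fin.sum_univ_two, Matrix.cons_val_zero, Matrix.cons_val_one, inv_one, one_mul,
    mul_one, star_one, h1, inv_mul_cancel, h.inv h1, star_neg, star_star] at h2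
  have h3 := (Complex.nonneg_iff.1 h2).1
  have h4 : φ g * star (φ g) = ((‖φ g‖ ^ 2 : ℝ) : ℂ) := by
    rw [Complex.star_def, Complex.mul_conj, Complex.normSq_eq_norm_sq]
  have h5 : (1 + -star (φ g) * φ g + (-φ g * star (φ g) + -φ g * -star (φ g))) =
      ((1 - ‖φ g‖ ^ 2 : ℝ) : ℂ) := by
    have : (1 + -star (φ g) * φ g + (-φ g * star (φ g) + -φ g * -star (φ g))) =
      1 - φ g * star (φ g) := by ring
    rw [this, h4]; push_cast; ring
  have h6 : (1 + -star (φ g) * φ g + (-φ g * star (φ g) + -φ g * -star (φ g))).re ≥ 0 := by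
    refine le_of_le_of_eq h3 ?_
    congr 1
    ring
  rw [h5, Complex.ofReal_re] at h6
  nlinarith [norm_nonneg (φ g)]

lemma convex_TS : Convex ℝ (TS G) := by
  rintro φ ⟨a1, a2, a3⟩ ψ ⟨b1, b2, b3⟩ s t hs ht hst
  refine ⟨?_, fun g h => ?_, fun F c => ?_⟩
  · simp only [Pi.add_apply, Pi.smul_apply, a1, b1]
    rw [Complex.real_smul, Complex.real_smul, mul_one, mul_one, ← Complex.ofReal_add, hst]
    simp
  · simp only [Pi.add_apply, Pi.smul_apply, a2, b2]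
  · have e : ∑ i ∈ F, ∑ j ∈ F, star (c j) * c i * (s • φ + t • ψ) (j⁻¹ * i) =
        (s : ℂ) * ∑ i ∈ F, ∑ j ∈ F, star (c j) * c i * φ (j⁻¹ * i) +
        (t : ℂ) * ∑ i ∈ F, ∑ j ∈ F, star (c j) * c i * ψ (j⁻¹ * i) := by
      rw [mul_sum, mul_sum, ← sum_add_distrib]
      refine sum_congr rfl fun i _ => ?_
      rw [mul_sum, mul_sum, ← sum_add_distrib]
      refine sum_congr rfl fun j _ => ?_
      simp only [Pi.add_apply, Pi.smul_apply, Complex.real_smul]
      ring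
    rw [e]
    exact add_nonneg (mul_nonneg (by exact_mod_cast hs) (a3 F c))
      (mul_nonneg (by exact_mod_cast ht) (b3 F c))

lemma isCompact_TS : IsCompact (TS G) := by
  have hsub : TS G ⊆ Set.pi Set.univ fun _ => Metric.closedBall (0 : ℂ) 1 := by
    rintro φ ⟨a1, a2, a3⟩ g -
    rw [mem_closedBall_zero_iff]
    exact PD.norm_le a3 a1 g
  refine IsCompact.of_isClosed_subset (isCompact_univ_pi fun _ => isCompact_closedBall _ _) ?_ hsub
  have e : TS G = {ψ : G → ℂ | ψ 1 = 1} ∩ (⋂ (g : G) (h : G), {ψ : G → ℂ | ψ (h * g * h⁻¹) = ψ g}) ∩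
      ⋂ (s : Finset G) (c : G → ℂ), {ψ : G → ℂ |
        0 ≤ (∑ i ∈ s, ∑ j ∈ s, star (c j) * c i * ψ (j⁻¹ * i)).re ∧
        (∑ i ∈ s, ∑ j ∈ s, star (c j) * c i * ψ (j⁻¹ * i)).im = 0} := by
    ext ψ
    simp only [TS, PD, Set.mem_inter_iff, Set.mem_iInter, Set.mem_ofPred_eq, Complex.nonneg_iff,
      and_assoc]
    constructor
    · rintro ⟨h1, h2, h3⟩
      exact ⟨h1, h2, fun s c => ⟨(h3 s c).1, (h3 s c).2.symm⟩⟩
    · rintro ⟨h1, h2, h3⟩
      exact ⟨h1, h2, fun s c => ⟨(h3 s c).1, (h3 s c).2.symm⟩⟩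
  rw [e]
  refine ((isClosed_eq (continuous_apply _) continuous_const).inter
    (isClosed_iInter fun g => isClosed_iInter fun h =>
      isClosed_eq (continuous_apply _) (continuous_apply _))).inter
    (isClosed_iInter fun s => isClosed_iInter fun c => ?_)
  have hc : Continuous fun ψ : G → ℂ => ∑ i ∈ s, ∑ j ∈ s, star (c j) * c i * ψ (j⁻¹ * i) :=
    continuous_finsetSum _ fun i _ => continuous_finsetSum _ fun j _ =>
      continuous_const.mul (continuous_apply _)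
  exact (isClosed_le continuous_const (Complex.continuous_re.comp hc)).inter
    (isClosed_eq (Complex.continuous_im.comp hc) continuous_const)

/-- **Krein-Milman for linear inequalities.** -/
lemma le_of_extreme {Λ : (G → ℂ) → ℝ} (hc : Continuous Λ)
    (hadd : ∀ φ ψ, Λ (φ + ψ) = Λ φ + Λ ψ) (hsmul : ∀ (s : ℝ) φ, Λ (s • φ) = s * Λ φ)
    (h : ∀ φ ∈ (TS G).extremePoints ℝ, Λ φ ≤ 0) : ∀ φ ∈ TS G, Λ φ ≤ 0 := by
  have hcl : IsClosed {φ : G → ℂ | Λ φ ≤ 0} := isClosed_le hc continuous_const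
  have hcv : Convex ℝ {φ : G → ℂ | Λ φ ≤ 0} := by
    intro φ hφ ψ hψ s t hs ht hst
    have h1 : Λ φ ≤ 0 := hφ
    have h2 : Λ ψ ≤ 0 := hψ
    change Λ (s • φ + t • ψ) ≤ 0
    rw [hadd, hsmul, hsmul]
    nlinarith
  have hkm := closure_convexHull_extremePoints (isCompact_TS (G := G)) convex_TS
  intro φ hφ
  rw [← hkm] at hφ
  exact (closure_minimal (convexHull_min h hcv) hcl) hφ

lemma FD.add {φ ψ : G → ℂ} (h1 : FD φ) (h2 : FD ψ) (s t : ℝ) : FD (s • φ + t • ψ) := by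
  unfold FD at *
  set V1 := Submodule.span ℂ {F : G → ℂ | ∃ n : G,
    (∃ r : ℚ, ∀ x : ℚ, (n : Equiv.Perm ℚ) x = x + r) ∧ F = fun x => φ (n * x)} with hV1
  set V2 := Submodule.span ℂ {F : G → ℂ | ∃ n : G,
    (∃ r : ℚ, ∀ x : ℚ, (n : Equiv.Perm ℚ) x = x + r) ∧ F = fun x => ψ (n * x)} with hV2
  have hle : Submodule.span ℂ {F : G → ℂ | ∃ n : G,
      (∃ r : ℚ, ∀ x : ℚ, (n : Equiv.Perm ℚ) x = x + r) ∧ F = fun x => (s • φ + t • ψ) (n * x)} ≤
      V1 ⊔ V2 := by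
    rw [Submodule.span_le]
    rintro F ⟨n, hn, rfl⟩
    have e : (fun x => (s • φ + t • ψ) (n * x)) =
        (s : ℂ) • (fun x => φ (n * x)) + (t : ℂ) • fun x => ψ (n * x) := by
      funext x
      simp [Complex.real_smul]
    rw [SetLike.mem_coe, e]
    exact Submodule.add_mem_sup (V1.smul_mem _ (Submodule.subset_span ⟨n, hn, rfl⟩))
      (V2.smul_mem _ (Submodule.subset_span ⟨n, hn, rfl⟩))
  exact Submodule.finiteDimensional_of_le hle

end Pool.Agent.Y253.TR
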