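import Pool.Agent.TH463.UQ.Trace

/-!
# The tracial state of an invariant measure

Every probability measure on the circle invariant under `x ↦ 2 x` and `x ↦ 3 x` gives a tracial
state of the group algebra of `ℤ² ⋉ ℤ[1/6]` which vanishes off the translations.
-/

set_option autoImplicit false

open MeasureTheory Filter Topology Finset
open scoped ComplexOrder

namespace Pool.Agent.Y253.TR

open Pool.Agent.W763.Tr Pool.Agent.TH654.FC

/-- the Fourier coefficient, as a function on `ℤ[1/6]` -/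
noncomputable def F (μ : Measure UnitAddCircle) (r : ℚ) : ℂ :=
  open Classical in
  if h : ∃ p : ℤ × ℕ, r = p.1 / 6 ^ p.2 then ∫ x, fourier h.choose.1 x ∂μ else 0

section

variable {μ : Measure UnitAddCircle} [IsProbabilityMeasure μ]

omit [IsProbabilityMeasure μ] in
lemma fc_mul {p : ℕ} (h : MeasurePreserving (fun x : UnitAddCircle => p • x) μ μ) (n : ℤ) :
    ∫ x, (fourier (n * p) x : ℂ) ∂μ = ∫ x, (fourier n x : ℂ) ∂μ := by
  rw [← integral_map_nsmul, h.map_eq]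

variable (h2 : MeasurePreserving (fun x : UnitAddCircle => 2 • x) μ μ)
  (h3 : MeasurePreserving (fun x : UnitAddCircle => 3 • x) μ μ)

include h2 h3

lemma fc_pow (a b : ℕ) (n : ℤ) :
    ∫ x, (fourier (n * (2 ^ a * 3 ^ b)) x : ℂ) ∂μ = ∫ x, (fourier n x : ℂ) ∂μ := by
  induction a with
  | zero =>
    induction b with
    | zero => simp
    | succ b ih =>
      rw [← ih]
      have := fc_mul h3 (n * (2 ^ 0 * 3 ^ b))
      rw [← this]
      congr 1; ext x; congr 2; push_cast; ring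
  | succ a ih =>
    rw [← ih]
    have := fc_mul h2 (n * (2 ^ a * 3 ^ b))
    rw [← this]
    congr 1; ext x; congr 2; push_cast; ring

lemma fc_eq {n m : ℤ} {a b c d : ℕ} (h : n * (2 ^ a * 3 ^ b) = m * (2 ^ c * 3 ^ d)) :
    ∫ x, (fourier n x : ℂ) ∂μ = ∫ x, (fourier m x : ℂ) ∂μ := by
  rw [← fc_pow h2 h3 a b n, h, fc_pow h2 h3]

lemma F_spec (n : ℤ) (k : ℕ) : F μ (n / 6 ^ k) = ∫ x, (fourier n x : ℂ) ∂μ := by
  have h : ∃ p : ℤ × ℕ, (n / 6 ^ k : ℚ) = p.1 / 6 ^ p.2 := ⟨(n, k), rfl⟩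
  unfold F
  rw [dif_pos h]
  have h5 := h.choose_spec
  set p := h.choose with hp
  have e : (n : ℚ) * 6 ^ p.2 = p.1 * 6 ^ k := by
    have a1 : (6 : ℚ) ^ k ≠ 0 := by positivity
    have a2 : (6 : ℚ) ^ p.2 ≠ 0 := by positivity
    rw [div_eq_div_iff a1 a2] at h5
    exact h5
  have e' : n * (2 ^ p.2 * 3 ^ p.2) = p.1 * (2 ^ k * 3 ^ k) := by
    rw [← mul_pow, ← mul_pow]
    norm_num
    exact_mod_cast e
  exact (fc_eq h2 h3 e').symm

lemma F_mul (a b : ℤ) {r : ℚ} (hr : Six r) : F μ (2 ^ a * 3 ^ b * r) = F μ r := by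
  obtain ⟨n, k, rfl⟩ := hr
  obtain ⟨m, l, hm⟩ : Six (2 ^ a * 3 ^ b * (n / 6 ^ k : ℚ)) :=
    ((six_two a).mul (six_three b)).mul ⟨n, k, rfl⟩
  rw [hm, F_spec h2 h3, F_spec h2 h3]
  obtain ⟨a1, a2, ha⟩ : ∃ a1 a2 : ℕ, a = a1 - a2 := ⟨a.toNat, (-a).toNat, by omega⟩
  obtain ⟨b1, b2, hb⟩ : ∃ b1 b2 : ℕ, b = b1 - b2 := ⟨b.toNat, (-b).toNat, by omega⟩
  refine fc_eq h2 h3 (a := k + a2) (b := k + b2) (c := l + a1) (d := l + b1) ?_
  have e1 : (2 : ℚ) ^ a = 2 ^ a1 / 2 ^ a2 := by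
    rw [ha, zpow_sub₀ (by norm_num)]; simp
  have e2 : (3 : ℚ) ^ b = 3 ^ b1 / 3 ^ b2 := by
    rw [hb, zpow_sub₀ (by norm_num)]; simp
  rw [e1, e2] at hm
  have c1 : (2 : ℚ) ^ a2 ≠ 0 := by positivity
  have c2 : (3 : ℚ) ^ b2 ≠ 0 := by positivity
  have h6 : ∀ e : ℕ, (6 : ℚ) ^ e = 2 ^ e * 3 ^ e := fun e => by rw [← mul_pow]; norm_num
  rw [h6, h6] at hm
  field_simp at hm
  have : (m : ℚ) * (2 ^ (k + a2) * 3 ^ (k + b2)) = n * (2 ^ (l + a1) * 3 ^ (l + b1)) := by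
    rw [pow_add, pow_add, pow_add, pow_add]
    linarith
  exact_mod_cast this

end

/-- positive definiteness of the Fourier coefficients -/
lemma pd_fourier (μ : Measure UnitAddCircle) [IsProbabilityMeasure μ] {ι : Type*} (s : Finset ι)
    (c : ι → ℂ) (N : ι → ℤ) :
    0 ≤ ∑ i ∈ s, ∑ j ∈ s, star (c j) * c i * ∫ x, (fourier (N i - N j) x : ℂ) ∂μ := by
  have hi : ∀ m : ℤ, Integrable (fun x : UnitAddCircle => (fourier m x : ℂ)) μ := fun m =>
    (by fun_prop : Continuous (fun x : UnitAddCircle =>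
      (fourier m x : ℂ))).integrable_of_hasCompactSupport (HasCompactSupport.of_compactSpace _)
  set P : UnitAddCircle → ℂ := fun x => ∑ i ∈ s, c i * fourier (N i) x with hP
  have hsq : ∀ x, ((‖P x‖ ^ 2 : ℝ) : ℂ) =
      ∑ i ∈ s, ∑ j ∈ s, star (c j) * c i * fourier (N i - N j) x := by
    intro x
    have e1 : ((‖P x‖ ^ 2 : ℝ) : ℂ) = P x * starRingEnd ℂ (P x) := by
      rw [Complex.mul_conj, Complex.normSq_eq_norm_sq]
    rw [e1, hP]
    simp only
    rw [map_sum, Finset.sum_mul]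
    refine Finset.sum_congr rfl fun i _ => ?_
    rw [Finset.mul_sum]
    refine Finset.sum_congr rfl fun j _ => ?_
    rw [map_mul, ← fourier_neg]
    have e2 : (fourier (N i - N j) x : ℂ) = fourier (N i) x * fourier (-(N j)) x := by
      rw [← fourier_add]; congr 1
    rw [e2, Complex.star_def]; ring
  have hsum : ∑ i ∈ s, ∑ j ∈ s, star (c j) * c i * ∫ x, (fourier (N i - N j) x : ℂ) ∂μ =
      ∫ x, ((‖P x‖ ^ 2 : ℝ) : ℂ) ∂μ := by
    simp only [hsq]
    rw [integral_finsetSum]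
    · refine Finset.sum_congr rfl fun i hi' => ?_
      rw [integral_finsetSum]
      · refine Finset.sum_congr rfl fun j hj' => ?_
        rw [integral_const_mul]
      · intro j _
        exact (hi _).const_mul _
    · intro i _
      exact integrable_finsetSum _ fun j _ => (hi _).const_mul _
  rw [hsum, integral_complex_ofReal]
  have : 0 ≤ ∫ x, ‖P x‖ ^ 2 ∂μ := integral_nonneg fun x => by positivity
  exact_mod_cast this

section

variable {G : Subgroup (Equiv.Perm ℚ)}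

/-- the linear part -/
def lin (g : G) : ℚ := (g : Equiv.Perm ℚ) 1 - (g : Equiv.Perm ℚ) 0

variable (hform : ∀ g : G, ∃ (a b : ℤ) (r : ℚ), Six r ∧
  ∀ x, (g : Equiv.Perm ℚ) x = 2 ^ a * 3 ^ b * x + r)

include hform

lemma lin_spec (g : G) : ∃ a b : ℤ, lin g = 2 ^ a * 3 ^ b ∧ Six ((g : Equiv.Perm ℚ) 0) := by
  obtain ⟨a, b, r, hr, h⟩ := hform g
  refine ⟨a, b, ?_, ?_⟩
  · unfold lin; rw [h, h]; ring
  · rw [h]; simpa using hr

lemma lin_ne (g : G) : lin g ≠ 0 := by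
  obtain ⟨a, b, h, -⟩ := lin_spec hform g
  rw [h]
  exact mul_ne_zero (zpow_ne_zero _ (by norm_num)) (zpow_ne_zero _ (by norm_num))

lemma aff (g : G) (x : ℚ) : (g : Equiv.Perm ℚ) x = lin g * x + (g : Equiv.Perm ℚ) 0 := by
  obtain ⟨a, b, r, hr, h⟩ := hform g
  unfold lin
  rw [h, h, h]; ring

lemma lin_mul (g h : G) : lin (g * h) = lin g * lin h := by
  have e : ∀ x, ((g * h : G) : Equiv.Perm ℚ) x =
      lin g * (lin h * x + (h : Equiv.Perm ℚ) 0) + (g : Equiv.Perm ℚ) 0 := by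
    intro x
    rw [Subgroup.coe_mul, Equiv.Perm.mul_apply, aff hform g, aff hform h]
  have : lin (g * h) = ((g * h : G) : Equiv.Perm ℚ) 1 - ((g * h : G) : Equiv.Perm ℚ) 0 := rfl
  rw [this, e, e]; ring

omit hform in
lemma lin_one : lin (1 : G) = 1 := by unfold lin; simp

lemma lin_inv (g : G) : lin g⁻¹ = (lin g)⁻¹ := by
  have := lin_mul hform g⁻¹ g
  rw [inv_mul_cancel, lin_one] at this
  exact eq_inv_of_mul_eq_one_left this.symm

lemma zero_inv (g : G) : ((g⁻¹ : G) : Equiv.Perm ℚ) 0 = -((g : Equiv.Perm ℚ) 0 / lin g) := by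
  rw [Subgroup.coe_inv, Equiv.Perm.inv_eq_iff_eq, aff hform g (-_)]
  have := lin_ne hform g
  field_simp
  ring

omit hform in
lemma coe_mul_zero (g h : G) : ((g * h : G) : Equiv.Perm ℚ) 0 =
    (g : Equiv.Perm ℚ) ((h : Equiv.Perm ℚ) 0) := rfl

open Classical in
/-- the trace of a measure -/
noncomputable def tr (μ : Measure UnitAddCircle) (g : G) : ℂ :=
  if lin g = 1 then F μ ((g : Equiv.Perm ℚ) 0) else 0

variable {μ : Measure UnitAddCircle} [IsProbabilityMeasure μ]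
  (h2 : MeasurePreserving (fun x : UnitAddCircle => 2 • x) μ μ)
  (h3 : MeasurePreserving (fun x : UnitAddCircle => 3 • x) μ μ)

include h2 h3

omit hform in
lemma tr_one : tr μ (1 : G) = 1 := by
  unfold tr
  rw [if_pos lin_one]
  have := F_spec h2 h3 0 0
  simp only [Int.cast_zero, zero_div] at this
  simp only [OneMemClass.coe_one, Equiv.Perm.coe_one, id_eq]
  rw [this]; simp

omit hform in
lemma tr_trans {g : G} {n : ℤ} {k : ℕ} (hg : ∀ x, (g : Equiv.Perm ℚ) x = x + n / 6 ^ k) :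
    tr μ g = ∫ x, (fourier n x : ℂ) ∂μ := by
  have h1 : lin g = 1 := by unfold lin; rw [hg, hg]; ring
  unfold tr
  rw [if_pos h1, hg, zero_add, F_spec h2 h3]

lemma tr_class (g h : G) : tr μ (h * g * h⁻¹) = tr μ g := by
  have hl : lin (h * g * h⁻¹) = lin g := by
    rw [lin_mul hform, lin_mul hform, lin_inv hform]
    have := lin_ne hform h
    field_simp
  unfold tr
  rw [hl]
  by_cases h1 : lin g = 1
  · rw [if_pos h1, if_pos h1]
    obtain ⟨a, b, hab, -⟩ := lin_spec hform h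
    have e : ((h * g * h⁻¹ : G) : Equiv.Perm ℚ) 0 = 2 ^ a * 3 ^ b * (g : Equiv.Perm ℚ) 0 := by
      rw [coe_mul_zero, Subgroup.coe_mul, Equiv.Perm.mul_apply, zero_inv hform, aff hform g, h1,
        aff hform h, hab]
      have := lin_ne hform h
      rw [hab] at this
      field_simp
      ring
    rw [e, F_mul h2 h3]
    exact (lin_spec hform g).choose_spec.choose_spec.2
  · rw [if_neg h1, if_neg h1]

omit [IsProbabilityMeasure μ] h2 h3 in
lemma tr_inv_mul (i j : G) (h : lin i = lin j) :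
    tr μ (j⁻¹ * i) = F μ ((i : Equiv.Perm ℚ) 0 / lin i - (j : Equiv.Perm ℚ) 0 / lin i) := by
  unfold tr
  have hj := lin_ne hform j
  rw [lin_mul hform, lin_inv hform, h, inv_mul_cancel₀ hj, if_pos rfl, coe_mul_zero,
    aff hform j⁻¹, zero_inv hform, lin_inv hform]
  congr 1
  field_simp
  ring

omit [IsProbabilityMeasure μ] h2 h3 in
lemma tr_inv_mul_ne (i j : G) (h : lin i ≠ lin j) : tr μ (j⁻¹ * i) = 0 := by
  unfold tr
  have hj := lin_ne hform j
  rw [lin_mul hform, lin_inv hform, if_neg]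
  intro h0
  apply h
  field_simp at h0
  exact h0

lemma tr_pd : PD (tr μ : G → ℂ) := by
  classical
  intro s c
  -- grouping
  have hgroup : ∑ i ∈ s, ∑ j ∈ s, star (c j) * c i * tr μ (j⁻¹ * i) =
      ∑ l ∈ s.image lin, ∑ i ∈ s with lin i = l, ∑ j ∈ s with lin j = l,
        star (c j) * c i * tr μ (j⁻¹ * i) := by
    rw [← Finset.sum_fiberwise_of_maps_to (s := s) (t := s.image lin) (g := lin)
      (fun i hi => mem_image_of_mem lin hi)]
    refine sum_congr rfl fun l _ => sum_congr rfl fun i hi => ?_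
    rw [sum_filter]
    refine sum_congr rfl fun j _ => ?_
    split_ifs with hj
    · rfl
    · rw [tr_inv_mul_ne hform i j, mul_zero]
      rw [(mem_filter.1 hi).2]
      exact fun e => hj e.symm
  rw [hgroup]
  refine sum_nonneg fun l hl => ?_
  -- common denominators
  set t := s.filter fun i => lin i = l with ht
  have hsix : ∀ i : G, ∃ (n : ℤ) (k : ℕ), (i : Equiv.Perm ℚ) 0 / lin i = n / 6 ^ k := by
    intro i
    obtain ⟨a, b, hab, h0⟩ := lin_spec hform i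
    have h1 : (lin i)⁻¹ = 2 ^ (-a) * 3 ^ (-b) := by
      rw [hab, mul_inv, zpow_neg, zpow_neg]
    rw [div_eq_mul_inv, h1]
    exact h0.mul ((six_two _).mul (six_three _))
  choose n k hnk using hsix
  set K := t.sup k with hK
  set N : G → ℤ := fun i => n i * 6 ^ (K - k i) with hN
  have hval : ∀ i ∈ t, ∀ j ∈ t, tr μ (j⁻¹ * i) = ∫ x, (fourier (N i - N j) x : ℂ) ∂μ := by
    intro i hi j hj
    have hil := (mem_filter.1 hi).2
    have hjl := (mem_filter.1 hj).2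
    have hNq : ∀ i ∈ t, (i : Equiv.Perm ℚ) 0 / lin i = (N i : ℚ) / 6 ^ K := by
      intro i hi
      rw [hnk i, hN]
      have hle : k i ≤ K := Finset.le_sup hi
      have e : (6 : ℚ) ^ K = 6 ^ (K - k i) * 6 ^ k i := by rw [← pow_add]; congr 1; omega
      have h6 : (6 : ℚ) ^ (K - k i) ≠ 0 := by positivity
      have h6' : (6 : ℚ) ^ (k i) ≠ 0 := by positivity
      push_cast
      rw [e]
      field_simp
    rw [tr_inv_mul hform i j (hil.trans hjl.symm)]
    have e1 : (j : Equiv.Perm ℚ) 0 / lin i = (j : Equiv.Perm ℚ) 0 / lin j := by rw [hil, hjl]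
    rw [e1, hNq i hi, hNq j hj, ← sub_div, ← Int.cast_sub, F_spec h2 h3]
  have e : ∑ i ∈ t, ∑ j ∈ t, star (c j) * c i * tr μ (j⁻¹ * i) =
      ∑ i ∈ t, ∑ j ∈ t, star (c j) * c i * ∫ x, (fourier (N i - N j) x : ℂ) ∂μ :=
    sum_congr rfl fun i hi => sum_congr rfl fun j hj => by rw [hval i hi j hj]
  rw [e]
  exact pd_fourier μ t c N

end

/-- **The dictionary.** -/
theorem trace_of_measure {s2 s3 t : Equiv.Perm ℚ} (hs2 : ∀ x, s2 x = 2 * x)
    (hs3 : ∀ x, s3 x = 3 * x) (ht : ∀ x, t x = x + 1) {G : Subgroup (Equiv.Perm ℚ)}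
    (hG : G = Subgroup.closure {s2, s3, t}) (μ : Measure UnitAddCircle) [IsProbabilityMeasure μ]
    (h2 : MeasurePreserving (fun x : UnitAddCircle => 2 • x) μ μ)
    (h3 : MeasurePreserving (fun x : UnitAddCircle => 3 • x) μ μ) :
    ∃ φ : G → ℂ, φ 1 = 1 ∧ (∀ g h : G, φ (h * g * h⁻¹) = φ g) ∧ PD φ ∧
      (∀ (g : G) (n : ℤ) (k : ℕ), (∀ x, (g : Equiv.Perm ℚ) x = x + n / 6 ^ k) →
        φ g = ∫ x, (fourier n x : ℂ) ∂μ) ∧
      (∀ g : G, (¬ ∃ r : ℚ, ∀ x, (g : Equiv.Perm ℚ) x = x + r) → φ g = 0) := by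
  have hform : ∀ g : G, ∃ (a b : ℤ) (r : ℚ), Six r ∧
      ∀ x, (g : Equiv.Perm ℚ) x = 2 ^ a * 3 ^ b * x + r := fun g =>
    form hs2 hs3 ht g (by rw [← hG]; exact g.2)
  refine ⟨tr μ, tr_one h2 h3, tr_class hform h2 h3, tr_pd hform h2 h3,
    fun g n k hg => tr_trans h2 h3 hg, fun g hg => ?_⟩
  unfold tr
  rw [if_neg]
  intro h1
  apply hg
  refine ⟨(g : Equiv.Perm ℚ) 0, fun x => ?_⟩
  rw [aff hform g x, h1, one_mul]

/-- **Finitely supported measures give conditionally finite-dimensional traces.** -/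
theorem findim_of_measure {s2 s3 t : Equiv.Perm ℚ} (hs2 : ∀ x, s2 x = 2 * x)
    (hs3 : ∀ x, s3 x = 3 * x) (ht : ∀ x, t x = x + 1) {G : Subgroup (Equiv.Perm ℚ)}
    (hG : G = Subgroup.closure {s2, s3, t}) (μ : Measure UnitAddCircle) [IsProbabilityMeasure μ]
    (h2 : MeasurePreserving (fun x : UnitAddCircle => 2 • x) μ μ)
    (h3 : MeasurePreserving (fun x : UnitAddCircle => 3 • x) μ μ)
    (hS : ∃ S : Finset UnitAddCircle, μ (S : Set UnitAddCircle)ᶜ = 0) :
    ∃ φ : G → ℂ, φ 1 = 1 ∧ (∀ g h : G, φ (h * g * h⁻¹) = φ g) ∧ PD φ ∧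
      FiniteDimensional ℂ (Submodule.span ℂ {F : G → ℂ | ∃ n : G,
        (∃ r : ℚ, ∀ x : ℚ, (n : Equiv.Perm ℚ) x = x + r) ∧ F = fun x => φ (n * x)}) ∧
      (∀ (g : G) (n : ℤ) (k : ℕ), (∀ x, (g : Equiv.Perm ℚ) x = x + n / 6 ^ k) →
        φ g = ∫ x, (fourier n x : ℂ) ∂μ) ∧
      (∀ g : G, (¬ ∃ r : ℚ, ∀ x, (g : Equiv.Perm ℚ) x = x + r) → φ g = 0) := by
  obtain ⟨φ, h1, hcl, hpd, hv, h0⟩ := trace_of_measure hs2 hs3 ht hG μ h2 h3
  refine ⟨φ, h1, hcl, hpd, ?_, hv, h0⟩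
  obtain ⟨τ, S6, ν, D⟩ := data_of hs2 hs3 ht hG h1 hcl hpd
  refine finite_dim D.hτ D.h1 D.hcl D.hpd S6 D.hS6 D.hform D.h2 D.h3 ?_
  obtain ⟨S, hS⟩ := hS
  -- restrict to the atoms
  classical
  set S' := S.filter fun y => μ {y} ≠ 0 with hS'
  have hS'0 : μ (S' : Set UnitAddCircle)ᶜ = 0 := by
    have : (S' : Set UnitAddCircle)ᶜ ⊆ (S : Set UnitAddCircle)ᶜ ∪
        ⋃ y ∈ S.filter (fun y => μ {y} = 0), {y} := by
      intro y hy
      by_cases hyS : y ∈ S
      · right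
        simp only [Set.mem_iUnion, Set.mem_singleton_iff]
        refine ⟨y, ?_, rfl⟩
        rw [mem_filter]
        refine ⟨hyS, ?_⟩
        by_contra hne
        exact hy (by rw [Finset.mem_coe, hS', mem_filter]; exact ⟨hyS, hne⟩)
      · left; exact hyS
    refine measure_mono_null this (measure_union_null hS ?_)
    have h5 : μ (⋃ y ∈ S.filter (fun y => μ {y} = 0), {y}) ≤
        ∑ y ∈ S.filter (fun y => μ {y} = 0), μ {y} := measure_biUnion_finset_le _ _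
    refine le_antisymm (h5.trans ?_) bot_le
    rw [Finset.sum_eq_zero fun y hy => (mem_filter.1 hy).2]
  have htor : ∀ y ∈ S', ∃ N : ℕ, 1 ≤ N ∧ N • y = 0 := fun y hy =>
    torsion h2 (mem_filter.1 hy).2
  choose! N hN1 hN using htor
  refine ⟨∏ y ∈ S', N y, ?_, fun n => ?_⟩
  · exact Nat.one_le_iff_ne_zero.2 (Finset.prod_ne_zero_iff.2 fun y hy => by
      have := hN1 y hy; omega)
  · have e : φ (τ ((∏ y ∈ S', N y : ℕ) * n)) =
        ∫ x, (fourier ((∏ y ∈ S', N y : ℕ) * n) x : ℂ) ∂μ := by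
      refine hv _ _ 0 fun x => ?_
      rw [D.hτ]; simp
    rw [e]
    have hae : ∀ᵐ x ∂μ, (fourier ((∏ y ∈ S', N y : ℕ) * n) x : ℂ) = 1 := by
      rw [ae_iff]
      refine measure_mono_null (fun x hx => ?_) hS'0
      intro hxS
      apply hx
      obtain ⟨c, hc⟩ := Finset.dvd_prod_of_mem N hxS
      rw [fourier_eq_one, hc, mul_comm, mul_smul, natCast_zsmul, mul_comm (N x) c, mul_smul,
        hN x hxS, smul_zero]
      simp
    rw [integral_congr_ae hae]
    simp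

end Pool.Agent.Y253.TR
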