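import Pool.Agent.Y253.TR.Vanish
import Pool.Agent.Y315.LV.Main

/-!
# Linear inequalities for tracial states
-/

set_option autoImplicit false

open MeasureTheory Filter Topology Finset
open scoped ComplexOrder ComplexConjugate

namespace Pool.Agent.Y253.TR

open Pool.Agent.W763.Tr Pool.Agent.TH654.FC Pool.Agent.Y315.LV

/-- the real trigonometric polynomial -/
noncomputable def tp {ι : Type*} (s : Finset ι) (α β : ι → ℝ) (N : ι → ℤ) :
    C(UnitAddCircle, ℝ) where
  toFun x := ∑ i ∈ s, (α i * (fourier (N i) x : ℂ).re + β i * (fourier (N i) x : ℂ).im)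
  continuous_toFun := continuous_finsetSum _ fun i _ =>
    (continuous_const.mul (Complex.continuous_re.comp (map_continuous (fourier (N i))))).add
      (continuous_const.mul (Complex.continuous_im.comp (map_continuous (fourier (N i)))))

lemma int_f (μ : Measure UnitAddCircle) [IsProbabilityMeasure μ] (n : ℤ) :
    Integrable (fun x : UnitAddCircle => (fourier n x : ℂ)) μ :=
  (by fun_prop : Continuous (fun x : UnitAddCircle =>
    (fourier n x : ℂ))).integrable_of_hasCompactSupport (HasCompactSupport.of_compactSpace _)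

lemma tp_int {ι : Type*} (s : Finset ι) (α β : ι → ℝ) (N : ι → ℤ) (μ : Measure UnitAddCircle)
    [IsProbabilityMeasure μ] : ∫ x, tp s α β N x ∂μ =
      ∑ i ∈ s, (α i * (∫ x, (fourier (N i) x : ℂ) ∂μ).re +
        β i * (∫ x, (fourier (N i) x : ℂ) ∂μ).im) := by
  have h1 : ∀ n : ℤ, ∫ x, (fourier n x : ℂ).re ∂μ = (∫ x, (fourier n x : ℂ) ∂μ).re := fun n => by
    have := integral_re (int_f μ n)
    simpa using this
  have h2 : ∀ n : ℤ, ∫ x, (fourier n x : ℂ).im ∂μ = (∫ x, (fourier n x : ℂ) ∂μ).im := fun n => by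
    have := integral_im (int_f μ n)
    simpa using this
  have i1 : ∀ n : ℤ, Integrable (fun x : UnitAddCircle => (fourier n x : ℂ).re) μ := fun n =>
    (int_f μ n).re
  have i2 : ∀ n : ℤ, Integrable (fun x : UnitAddCircle => (fourier n x : ℂ).im) μ := fun n =>
    (int_f μ n).im
  change ∫ x, ∑ i ∈ s, (α i * (fourier (N i) x : ℂ).re + β i * (fourier (N i) x : ℂ).im) ∂μ = _
  rw [integral_finsetSum]
  · refine sum_congr rfl fun i _ => ?_
    rw [integral_add ((i1 _).const_mul _) ((i2 _).const_mul _), integral_const_mul,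
      integral_const_mul, h1, h2]
  · intro i _
    exact ((i1 _).const_mul _).add ((i2 _).const_mul _)

lemma int_haar {n : ℤ} (hn : n ≠ 0) :
    ∫ x, (fourier n x : ℂ) ∂(AddCircle.haarAddCircle : Measure UnitAddCircle) = 0 := by
  have h := fourierCoeff_fourier (T := 1) n
  have h0 := congrFun h 0
  rw [Pi.single_eq_of_ne hn.symm] at h0
  unfold fourierCoeff at h0
  simpa using h0

lemma tp_dsum {ι : Type*} (s : Finset ι) (α β : ι → ℝ) (N : ι → ℤ) : Dsum (tp s α β N) := by
  classical
  unfold Dsum
  refine summable_of_ne_finset_zero (s := s.image N ∪ s.image fun i => -N i) fun n hn => ?_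
  have hn1 : ∀ i ∈ s, N i ≠ n := fun i hi h =>
    hn (mem_union_left _ (mem_image.2 ⟨i, hi, h⟩))
  have hn2 : ∀ i ∈ s, -N i ≠ n := fun i hi h =>
    hn (mem_union_right _ (mem_image.2 ⟨i, hi, h⟩))
  have hco : co (tp s α β N) n = 0 := by
    unfold co fourierCoeff
    have e : ∀ x : UnitAddCircle, (fourier (-n) x : ℂ) • (fC (tp s α β N)) x =
        ∑ i ∈ s, (((α i : ℂ) - β i * Complex.I) / 2 * fourier (N i - n) x +
          ((α i : ℂ) + β i * Complex.I) / 2 * fourier (-N i - n) x) := by
      intro x
      have h1 : (fC (tp s α β N)) x = ((∑ i ∈ s, (α i * (fourier (N i) x : ℂ).re +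
        β i * (fourier (N i) x : ℂ).im) : ℝ) : ℂ) := rfl
      rw [h1, smul_eq_mul]
      push_cast
      rw [mul_sum]
      refine sum_congr rfl fun i _ => ?_
      have e1 : (fourier (N i - n) x : ℂ) = fourier (N i) x * fourier (-n) x := by
        rw [← fourier_add]; congr 1
      have e2 : (fourier (-N i - n) x : ℂ) = conj (fourier (N i) x : ℂ) * fourier (-n) x := by
        rw [← fourier_neg, ← fourier_add]; congr 1
      rw [e1, e2]
      set z : ℂ := fourier (N i) x
      set w : ℂ := fourier (-n) x
      have e3 : (z.re : ℂ) = (z + conj z) / 2 := by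
        rw [Complex.re_eq_add_conj]
      have e4 : (z.im : ℂ) = (z - conj z) / (2 * Complex.I) := by
        rw [Complex.im_eq_sub_conj]
      rw [e3, e4]
      have hI : Complex.I ≠ 0 := Complex.I_ne_zero
      field_simp
      ring_nf
      simp only [Complex.I_sq]
      ring
    simp_rw [e]
    rw [integral_finsetSum]
    · refine sum_eq_zero fun i hi => ?_
      rw [integral_add ((int_f _ _).const_mul _) ((int_f _ _).const_mul _), integral_const_mul,
        integral_const_mul, int_haar (sub_ne_zero.2 (hn1 i hi)),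
        int_haar (sub_ne_zero.2 (hn2 i hi))]
      simp
    · intro i _
      exact ((int_f _ _).const_mul _).add ((int_f _ _).const_mul _)
  rw [hco]; simp

end Pool.Agent.Y253.TR
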