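import Pool.Agent.Y253.TR.Fun

/-!
# Linear inequalities for tracial states: from conditionally finite-dimensional ones to all
-/

set_option autoImplicit false

open MeasureTheory Filter Topology Finset
open scoped ComplexOrder ComplexConjugate

namespace Pool.Agent.Y253.TR

open Pool.Agent.W763.Tr Pool.Agent.TH654.FC Pool.Agent.Y315.LV

variable {G : Subgroup (Equiv.Perm ℚ)}

/-- twisting by a character -/
lemma twist {w : G → ℂ} (hw1 : w 1 = 1) (hwc : ∀ g h, w (h * g * h⁻¹) = w g)
    (hwm : ∀ g h, w (h⁻¹ * g) = star (w h) * w g) {φ : G → ℂ} (hφ : φ ∈ TS G) :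
    (fun g => w g * φ g) ∈ TS G := by
  obtain ⟨h1, hcl, hpd⟩ := hφ
  refine ⟨by simp only [hw1, h1, mul_one], fun g h => by simp only [hwc, hcl], fun s c => ?_⟩
  refine le_of_le_of_eq (hpd s fun i => c i * w i) ?_
  refine sum_congr rfl fun i _ => sum_congr rfl fun j _ => ?_
  simp only
  rw [hwm, star_mul]
  ring

/-- the functional -/
noncomputable def La (F : Finset G) (α β : G → ℝ) (φ : G → ℂ) : ℝ :=
  ∑ g ∈ F, (α g * (φ g).re + β g * (φ g).im)

lemma La_cont (F : Finset G) (α β : G → ℝ) : Continuous (La F α β) :=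
  continuous_finsetSum _ fun g _ =>
    (continuous_const.mul (Complex.continuous_re.comp (continuous_apply g))).add
      (continuous_const.mul (Complex.continuous_im.comp (continuous_apply g)))

lemma La_add (F : Finset G) (α β : G → ℝ) (φ ψ : G → ℂ) :
    La F α β (φ + ψ) = La F α β φ + La F α β ψ := by
  unfold La
  rw [← sum_add_distrib]
  refine sum_congr rfl fun g _ => ?_
  simp only [Pi.add_apply, Complex.add_re, Complex.add_im]
  ring

lemma La_smul (F : Finset G) (α β : G → ℝ) (s : ℝ) (φ : G → ℂ) :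
    La F α β (s • φ) = s * La F α β φ := by
  unfold La
  rw [mul_sum]
  refine sum_congr rfl fun g _ => ?_
  simp only [Pi.smul_apply, Complex.real_smul, Complex.re_ofReal_mul, Complex.im_ofReal_mul]
  ring

lemma La_sum {κ : Type*} (J : Finset κ) (F : Finset G) (α β : G → ℝ) (φ : κ → G → ℂ) :
    La F α β (∑ j ∈ J, φ j) = ∑ j ∈ J, La F α β (φ j) := by
  classical
  induction J using Finset.induction_on with
  | empty => simp [La]
  | insert a J ha ih => rw [sum_insert ha, sum_insert ha, La_add, ih]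

section

variable {s2 s3 t : Equiv.Perm ℚ} (hs2 : ∀ x, s2 x = 2 * x)
    (hs3 : ∀ x, s3 x = 3 * x) (ht : ∀ x, t x = x + 1)
    (hG : G = Subgroup.closure {s2, s3, t})

include hs2 hs3 ht hG

lemma hform' : ∀ g : G, ∃ (a b : ℤ) (r : ℚ), Six r ∧
    ∀ x, (g : Equiv.Perm ℚ) x = 2 ^ a * 3 ^ b * x + r := fun g =>
  form hs2 hs3 ht g (by rw [← hG]; exact g.2)

lemma trans_num {g : G} (hg : lin g = 1) : ∃ (n : ℤ) (k : ℕ),
    ∀ x, (g : Equiv.Perm ℚ) x = x + n / 6 ^ k := by
  obtain ⟨a, b, -, n, k, h⟩ := lin_spec (hform' hs2 hs3 ht hG) g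
  exact ⟨n, k, fun x => by rw [aff (hform' hs2 hs3 ht hG) g x, hg, one_mul, h]⟩

variable {F : Finset G} (h1F : (1 : G) ∉ F) {α β : G → ℝ}
  (hfd : ∀ ψ ∈ TS G, FD ψ → La F α β ψ ≤ 0)

include h1F hfd

open Classical in
/-- invariant measures -/
lemma meas_zero {n : G → ℤ} {k : G → ℕ}
    (hnk : ∀ g : G, lin g = 1 → ∀ x, (g : Equiv.Perm ℚ) x = x + n g / 6 ^ k g)
    (μ : Measure UnitAddCircle) [IsProbabilityMeasure μ]
    (h2 : MeasurePreserving (fun x : UnitAddCircle => 2 • x) μ μ)
    (h3 : MeasurePreserving (fun x : UnitAddCircle => 3 • x) μ μ) :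
    ∑ g ∈ F with lin g = 1, (α g * (∫ x, (fourier (n g) x : ℂ) ∂μ).re +
      β g * (∫ x, (fourier (n g) x : ℂ) ∂μ).im) = 0 := by
  have hn0 : ∀ g ∈ F.filter (fun g => lin g = 1), n g ≠ 0 := by
    intro g hg h0
    obtain ⟨hgF, hl⟩ := mem_filter.1 hg
    apply h1F
    have : g = 1 := by
      apply Subtype.ext
      apply Equiv.ext
      intro x
      rw [hnk g hl, h0]; simp
    rwa [this] at hgF
  set f := tp (F.filter fun g => lin g = 1) α β n with hf
  have hhaar : ∫ x, f x ∂(AddCircle.haarAddCircle : Measure UnitAddCircle) = 0 := by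
    rw [hf, tp_int]
    refine sum_eq_zero fun g hg => ?_
    rw [int_haar (hn0 g hg)]; simp
  have hmax : LebMax {2, 3} f := by
    intro ν hν hinv hS
    rw [hhaar, hf, tp_int]
    have m2 := hinv 2 (by simp)
    have m3 := hinv 3 (by simp)
    obtain ⟨ψ, h1, hcl, hpd, hfdψ, hv, h0⟩ := findim_of_measure hs2 hs3 ht hG ν m2 m3 hS
    refine le_of_eq_of_le ?_ (hfd ψ ⟨h1, hcl, hpd⟩ hfdψ)
    unfold La
    rw [sum_filter]
    refine sum_congr rfl fun g _ => ?_
    split_ifs with hl
    · rw [hv g (n g) (k g) (hnk g hl)]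
    · rw [h0 g]
      · simp
      · rintro ⟨r, hr⟩
        apply hl
        unfold lin
        rw [hr, hr]; ring
  have key := integral_eq (P := {2, 3}) (by
    intro p hp
    simp only [mem_insert, mem_singleton] at hp
    rcases hp with rfl | rfl <;> norm_num) hmax (tp_dsum _ _ _ _) μ (by
    intro p hp
    simp only [mem_insert, mem_singleton] at hp
    rcases hp with rfl | rfl
    · exact h2
    · exact h3)
  rw [hhaar, hf, tp_int] at key
  exact key

/-- extreme traces -/
lemma extreme_le : ∀ φ ∈ (TS G).extremePoints ℝ, La F α β φ ≤ 0 := by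
  classical
  intro φ hφ
  obtain ⟨h1, hcl, hpd⟩ := hφ.1
  obtain ⟨τ, S6, μ, D⟩ := data_of hs2 hs3 ht hG h1 hcl hpd
  have := D.prob
  rcases Pool.Agent.TH463.UQ.finite_or_atomless D hφ with h | hat
  · exact hfd φ hφ.1 h
  · choose! n k hnk using fun (g : G) (hg : lin g = 1) => trans_num hs2 hs3 ht hG hg
    have key := meas_zero hs2 hs3 ht hG h1F hfd hnk μ D.mp2 D.mp3
    refine le_of_eq (Eq.trans ?_ key)
    unfold La
    rw [sum_filter]
    refine sum_congr rfl fun g _ => ?_
    split_ifs with hl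
    · rw [phi_trans D.hτ D.hcl S6 D.hS6 g (n g) (k g) (hnk g hl), ← D.hμ]
    · rw [vanish D hat (g := g)]
      · simp
      · rintro ⟨r, hr⟩
        apply hl
        unfold lin
        rw [hr, hr]; ring

lemma all_le : ∀ φ ∈ TS G, La F α β φ ≤ 0 :=
  le_of_extreme (La_cont F α β) (La_add F α β) (La_smul F α β)
    (extreme_le hs2 hs3 ht hG h1F hfd)

/-- **The main lemma.** -/
theorem all_zero' : ∀ φ ∈ TS G, La F α β φ = 0 := by
  classical
  intro φ hφ
  have hf := hform' hs2 hs3 ht hG
  -- the exponents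
  have hexp : ∀ g : G, lin g = 2 ^ (padicValRat 2 (lin g)) * 3 ^ (padicValRat 3 (lin g)) := by
    intro g
    obtain ⟨a, b, hab, -⟩ := lin_spec hf g
    have n2 : ((2 : ℚ) ^ a) ≠ 0 := zpow_ne_zero _ (by norm_num)
    have n3 : ((3 : ℚ) ^ b) ≠ 0 := zpow_ne_zero _ (by norm_num)
    have : Fact (Nat.Prime 3) := ⟨by norm_num⟩
    have e1 : padicValRat 2 (lin g) = a := by
      rw [hab, padicValRat.mul n2 n3, padicValRat.zpow, padicValRat.zpow]
      have h1 : padicValRat 2 (2 : ℚ) = 1 := by
        exact_mod_cast padicValRat.self (p := 2) (by norm_num)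
      have h2 : padicValRat 2 (3 : ℚ) = 0 := by
        have : padicValRat 2 ((3 : ℕ) : ℚ) = ((padicValNat 2 3 : ℕ) : ℤ) := padicValRat.of_nat
        rw [padicValNat.eq_zero_of_not_dvd (by norm_num)] at this
        exact_mod_cast this
      rw [h1, h2]; ring
    have e2 : padicValRat 3 (lin g) = b := by
      rw [hab, padicValRat.mul n2 n3, padicValRat.zpow, padicValRat.zpow]
      have h1 : padicValRat 3 (3 : ℚ) = 1 := by
        exact_mod_cast padicValRat.self (p := 3) (by norm_num)
      have h2 : padicValRat 3 (2 : ℚ) = 0 := by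
        have : padicValRat 3 ((2 : ℕ) : ℚ) = ((padicValNat 3 2 : ℕ) : ℤ) := padicValRat.of_nat
        rw [padicValNat.eq_zero_of_not_dvd (by norm_num)] at this
        exact_mod_cast this
      rw [h1, h2]; ring
    rw [e1, e2, hab]
  set a : G → ℤ := fun g => padicValRat 2 (lin g) with ha
  set b : G → ℤ := fun g => padicValRat 3 (lin g) with hb
  have : Fact (Nat.Prime 3) := ⟨by norm_num⟩
  have ha_mul : ∀ g h : G, a (g * h) = a g + a h := fun g h => by
    simp only [ha]
    rw [lin_mul hf, padicValRat.mul (lin_ne hf g) (lin_ne hf h)]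
  have hb_mul : ∀ g h : G, b (g * h) = b g + b h := fun g h => by
    simp only [hb]
    rw [lin_mul hf, padicValRat.mul (lin_ne hf g) (lin_ne hf h)]
  set M : ℤ := 1 + ∑ g ∈ F, |b g| with hM
  have hMb : ∀ g ∈ F, |b g| < M := by
    intro g hg
    have : |b g| ≤ ∑ g ∈ F, |b g| :=
      single_le_sum (f := fun g => |b g|) (fun g _ => abs_nonneg _) hg
    omega
  set e : G → ℤ := fun g => M * a g + b g with he
  have he_mul : ∀ g h : G, e (g * h) = e g + e h := fun g h => by
    simp only [he]; rw [ha_mul, hb_mul]; ring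
  have he1 : e 1 = 0 := by
    have := he_mul 1 1
    rw [mul_one] at this
    omega
  have he_inv : ∀ g : G, e g⁻¹ = -e g := fun g => by
    have := he_mul g⁻¹ g
    rw [inv_mul_cancel, he1] at this
    omega
  have he0 : ∀ g : G, lin g = 1 → e g = 0 := by
    intro g hg
    simp only [he, ha, hb]
    rw [hg]; simp
  have hene : ∀ g ∈ F, lin g ≠ 1 → e g ≠ 0 := by
    intro g hg hl h0
    simp only [he] at h0
    by_cases ha0 : a g = 0
    · rw [ha0, mul_zero, zero_add] at h0
      apply hl
      rw [hexp g]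
      have h3 : padicValRat 2 (lin g) = 0 := ha0
      have h4 : padicValRat 3 (lin g) = 0 := h0
      rw [h3, h4]; simp
    · have h5 : |M * a g| = |b g| := by
        have : M * a g = - b g := by omega
        rw [this, abs_neg]
      have hM0 : 0 < M := by
        have := hMb g hg
        have := abs_nonneg (b g)
        omega
      rw [abs_mul, abs_of_pos hM0] at h5
      have h6 : 1 ≤ |a g| := Int.one_le_abs ha0
      have h7 := hMb g hg
      nlinarith
  set m : ℕ := 1 + ∑ g ∈ F, (e g).natAbs with hm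
  have hmE : ∀ g ∈ F, (e g).natAbs < m := by
    intro g hg
    have : (e g).natAbs ≤ ∑ g ∈ F, (e g).natAbs :=
      single_le_sum (f := fun g => (e g).natAbs) (fun g _ => Nat.zero_le _) hg
    omega
  have hm0 : m ≠ 0 := by omega
  set ζ : ℂ := Complex.exp (2 * Real.pi * Complex.I / m) with hζ
  have hprim : IsPrimitiveRoot ζ m := Complex.isPrimitiveRoot_exp m hm0
  have hζ0 : ζ ≠ 0 := hprim.ne_zero hm0
  have hstar : star ζ = ζ⁻¹ := by
    rw [Complex.star_def, Complex.inv_def, Complex.normSq_eq_norm_sq,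
      hprim.norm'_eq_one hm0]
    simp
  -- the characters
  set w : ℕ → G → ℂ := fun j g => (ζ ^ (e g)) ^ j with hw
  have hwTS : ∀ j : ℕ, (fun g => w j g * φ g) ∈ TS G := by
    intro j
    refine twist ?_ (fun g h => ?_) (fun g h => ?_) hφ
    · simp only [hw]; rw [he1]; simp
    · simp only [hw]
      rw [he_mul, he_mul, he_inv]
      congr 2; ring
    · simp only [hw]
      rw [he_mul, he_inv, zpow_add₀ hζ0, mul_pow, star_pow, star_zpow₀, hstar, zpow_neg, inv_zpow]
  have hle : ∀ j : ℕ, La F α β (fun g => w j g * φ g) ≤ 0 := fun j =>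
    all_le hs2 hs3 ht hG h1F hfd _ (hwTS j)
  -- the sum over the characters
  have hsum : ∑ j ∈ range m, La F α β (fun g => w j g * φ g) = 0 := by
    obtain ⟨h1, hcl, hpd⟩ := hφ
    obtain ⟨τ, S6, μ, D⟩ := data_of hs2 hs3 ht hG h1 hcl hpd
    have := D.prob
    choose! n k hnk using fun (g : G) (hg : lin g = 1) => trans_num hs2 hs3 ht hG hg
    have key := meas_zero hs2 hs3 ht hG h1F hfd hnk μ D.mp2 D.mp3
    rw [← La_sum]
    have e5 : La F α β (∑ j ∈ range m, fun g => w j g * φ g) =
        m * ∑ g ∈ F with lin g = 1, (α g * (∫ x, (fourier (n g) x : ℂ) ∂μ).re +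
          β g * (∫ x, (fourier (n g) x : ℂ) ∂μ).im) := by
      unfold La
      rw [sum_filter, mul_sum]
      refine sum_congr rfl fun g hg => ?_
      have e6 : (∑ j ∈ range m, fun g => w j g * φ g) g = (∑ j ∈ range m, w j g) * φ g := by
        rw [Finset.sum_apply, sum_mul]
      rw [e6]
      split_ifs with hl
      · have e7 : ∑ j ∈ range m, w j g = (m : ℝ) := by
          simp only [hw]
          rw [he0 g hl]; simp
        rw [e7, phi_trans D.hτ D.hcl S6 D.hS6 g (n g) (k g) (hnk g hl), ← D.hμ,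
          Complex.re_ofReal_mul, Complex.im_ofReal_mul]
        ring
      · have e7 : ∑ j ∈ range m, w j g = 0 := by
          simp only [hw]
          have hne1 : ζ ^ (e g) ≠ 1 := by
            rw [Ne, hprim.zpow_eq_one_iff_dvd]
            intro hd
            have h8 := Int.natAbs_dvd_natAbs.2 hd
            rw [Int.natAbs_natCast] at h8
            have h9 := Nat.le_of_dvd (Int.natAbs_pos.2 (hene g hg hl)) h8
            have := hmE g hg
            omega
          rw [geom_sum_eq hne1, ← zpow_natCast, ← zpow_mul, mul_comm, zpow_mul, zpow_natCast,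
            hprim.pow_eq_one, one_zpow, sub_self, zero_div]
        rw [e7, zero_mul]; simp
    rw [e5, key, mul_zero]
  have h0 := (sum_eq_zero_iff_of_nonpos fun j _ => hle j).1 hsum 0 (mem_range.2 (by omega))
  have e0 : (fun g => w 0 g * φ g) = φ := by
    funext g
    simp [hw]
  rwa [e0] at h0

end

end Pool.Agent.Y253.TR
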