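import Pool.Agent.Y253.TR.Basic
import Pool.Agent.Y315.SC.Mov

/-!
# Moments of the averages of the conjugates of a translation
-/

set_option autoImplicit false

open MeasureTheory Filter Topology Finset
open scoped ComplexOrder ComplexConjugate

namespace Pool.Agent.Y253.TR

open Pool.Agent.W763.Tr Pool.Agent.TH654.FC

/-- the linear extension of `φ` to the group ring: `φ (∑ a_h h) = ∑ a_h φ (h)` -/
noncomputable def ext {H : Type*} (φ : H → ℂ) (x : MonoidAlgebra ℂ H) : ℂ :=
  x.coeff.sum fun h a => a * φ h

/-- `(1 / L) ∑_{i < L} g ^ (Q ^ i) - c` in the group ring -/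
noncomputable def dev {H : Type*} [Group H] (Q : ℕ) (g : H) (c : ℂ) (L : ℕ) : MonoidAlgebra ℂ H :=
  (L : ℂ)⁻¹ • ∑ i ∈ range L, MonoidAlgebra.of ℂ H (g ^ (Q ^ i)) - c • 1

section

variable {H : Type*} [Group H]

lemma ext_add (φ : H → ℂ) (x y : MonoidAlgebra ℂ H) : ext φ (x + y) = ext φ x + ext φ y := by
  classical
  unfold ext
  rw [MonoidAlgebra.coeff_add]
  exact Finsupp.sum_add_index' (fun _ => by ring) (by intros; ring)

lemma ext_single (φ : H → ℂ) (h : H) (a : ℂ) : ext φ (MonoidAlgebra.single h a) = a * φ h := by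
  unfold ext
  rw [MonoidAlgebra.coeff_single]
  exact Finsupp.sum_single_index (by ring)

lemma ext_zero (φ : H → ℂ) : ext φ 0 = 0 := by
  unfold ext; simp

/-- evaluation at a point of the circle of the elements of the group ring of `ℤ` -/
noncomputable def ev (n : ℤ) (x : UnitAddCircle) : MonoidAlgebra ℂ (Multiplicative ℤ) →ₐ[ℂ] ℂ :=
  MonoidAlgebra.lift ℂ ℂ (Multiplicative ℤ)
    { toFun := fun z => fourier (n * z.toAdd) x
      map_one' := by simp
      map_mul' := fun a b => by rw [toAdd_mul, mul_add, fourier_add] }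

lemma ev_single (n : ℤ) (x : UnitAddCircle) (z : Multiplicative ℤ) (a : ℂ) :
    ev n x (MonoidAlgebra.single z a) = a * fourier (n * z.toAdd) x := by
  unfold ev
  rw [MonoidAlgebra.lift_single]
  rfl

lemma ev_of (n : ℤ) (x : UnitAddCircle) (z : Multiplicative ℤ) :
    ev n x (MonoidAlgebra.of ℂ _ z) = fourier (n * z.toAdd) x := by
  unfold ev
  rw [MonoidAlgebra.lift_of]
  rfl

lemma ev_cont (n : ℤ) (P : MonoidAlgebra ℂ (Multiplicative ℤ)) :
    Continuous fun x : UnitAddCircle => ev n x P := by
  induction P using MonoidAlgebra.induction_linear with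
  | zero => simp only [map_zero]; exact continuous_const
  | add P R hP hR => simp only [map_add]; exact hP.add hR
  | single z a =>
    simp only [ev_single]
    exact continuous_const.mul (fourier _).continuous

/-- the ring homomorphism of `g` -/
noncomputable def rh (g : H) : MonoidAlgebra ℂ (Multiplicative ℤ) →+* MonoidAlgebra ℂ H :=
  MonoidAlgebra.mapDomainRingHom ℂ (zpowersHom H g)

lemma rh_single (g : H) (z : Multiplicative ℤ) (a : ℂ) :
    rh g (MonoidAlgebra.single z a) = MonoidAlgebra.single (g ^ z.toAdd) a := by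
  unfold rh
  simp [zpowersHom_apply]

/-- integration -/
lemma ext_rh {φ : H → ℂ} {g : H} {n : ℤ} {μ : Measure UnitAddCircle} [IsProbabilityMeasure μ]
    (h : ∀ z : ℤ, φ (g ^ z) = ∫ x, (fourier (n * z) x : ℂ) ∂μ)
    (P : MonoidAlgebra ℂ (Multiplicative ℤ)) : ext φ (rh g P) = ∫ x, ev n x P ∂μ := by
  have hi : ∀ P : MonoidAlgebra ℂ (Multiplicative ℤ), Integrable (fun x => ev n x P) μ := fun P =>
    (ev_cont n P).integrable_of_hasCompactSupport (HasCompactSupport.of_compactSpace _)
  induction P using MonoidAlgebra.induction_linear with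
  | zero => simp [ext_zero]
  | add P R hP hR =>
    rw [map_add, ext_add, hP, hR, ← integral_add (hi P) (hi R)]
    simp only [map_add]
  | single z a =>
    rw [rh_single, ext_single, h]
    simp only [ev_single]
    rw [integral_const_mul]

end

end Pool.Agent.Y253.TR
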