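import Pool.Agent.Y253.TR.Dict
import Pool.Agent.Y315.FC.TwoThree

/-!
# The values of the tracial states at the translations
-/

set_option autoImplicit false

open MeasureTheory Filter Topology Finset
open scoped ComplexOrder ComplexConjugate

namespace Pool.Agent.Y253.TR

open Pool.Agent.W763.Tr Pool.Agent.TH654.FC Pool.Agent.Y315.FC

/-- `c` is the `n`-th Fourier coefficient of a jointly invariant probability measure carried by a
finite group of rational points -/
def V (n : ℤ) (c : ℂ) : Prop := ∃ μ : Measure UnitAddCircle, IsProbabilityMeasure μ ∧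
  MeasurePreserving (fun x : UnitAddCircle => 2 • x) μ μ ∧
  MeasurePreserving (fun x : UnitAddCircle => 3 • x) μ μ ∧
  (∃ M : ℕ, 1 ≤ M ∧ ∀ m : ℤ, ∫ x, (fourier (M * m) x : ℂ) ∂μ = 1) ∧
  ∫ x, (fourier n x : ℂ) ∂μ = c

lemma orb_kernel {N : ℕ} [NeZero N] {S : Finset (ZMod N)} (hS : S.Nonempty) (m : ℤ) :
    ∫ x, (fourier ((N : ℤ) * m) x : ℂ) ∂(orb S) = 1 := by
  have := orb_prob hS
  unfold orb
  rw [integral_smul_measure, integral_finsetSum_measure]
  · have e : ∀ a ∈ S, ∫ x, (fourier ((N : ℤ) * m) x : ℂ)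
        ∂(Measure.dirac (ZMod.toAddCircle a) : Measure UnitAddCircle) = 1 := by
      intro a _
      rw [integral_dirac, fourier_eq_one, mul_comm, mul_smul, natCast_zsmul, ← map_nsmul]
      simp
    rw [sum_congr rfl e]
    simp only [sum_const, nsmul_eq_mul, mul_one]
    rw [ENNReal.toReal_inv, ENNReal.toReal_natCast, Complex.real_smul]
    push_cast
    refine inv_mul_cancel₀ ?_
    exact_mod_cast hS.card_pos.ne'
  · intro i _
    exact int_c (map_continuous _)

lemma V_five : V 1 (-1 / 4) := by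
  refine ⟨orb (N := 5) {1, 2, 3, 4}, orb_prob (by decide), orb_mp 2 (by decide),
    orb_mp 3 (by decide), ⟨5, by norm_num, fun m => orb_kernel (N := 5) (by decide) m⟩, ?_⟩
  rw [orb_co]
  have hcard : (({1, 2, 3, 4} : Finset (ZMod 5)).card : ℂ) = 4 := by
    have : ({1, 2, 3, 4} : Finset (ZMod 5)).card = 4 := by decide
    rw [this]; norm_num
  rw [hcard]
  have hs : ∑ a ∈ ({1, 2, 3, 4} : Finset (ZMod 5)), (ZMod.stdAddChar a : ℂ) =
      (ZMod.stdAddChar (1 : ZMod 5) : ℂ) + (ZMod.stdAddChar (1 : ZMod 5) : ℂ) ^ 2 +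
      (ZMod.stdAddChar (1 : ZMod 5) : ℂ) ^ 3 + (ZMod.stdAddChar (1 : ZMod 5) : ℂ) ^ 4 := by
    rw [← char_pow, ← char_pow, ← char_pow]
    rw [Finset.sum_insert (by decide), Finset.sum_insert (by decide),
      Finset.sum_insert (by decide), Finset.sum_singleton]
    push_cast
    ring
  have hg := geom_zero (N := 5) (by norm_num)
  simp only [Finset.sum_range_succ, Finset.sum_range_zero, zero_add, pow_zero, pow_one] at hg
  rw [hs]
  linear_combination (1 / 4) * hg

lemma V_tw : ∃ c : ℂ, V 1 c ∧ c.re = -1 / 22 ∧ |c.im| = Real.sqrt 23 / 22 := by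
  refine ⟨_, ⟨orb (N := 23) {1, 2, 3, 4, 6, 8, 9, 12, 13, 16, 18}, orb_prob (by decide),
    orb_mp 2 (by decide), orb_mp 3 (by decide),
    ⟨23, by norm_num, fun m => orb_kernel (N := 23) (by decide) m⟩, rfl⟩, ?_⟩
  rw [orb_co]
  have hcard : (({1, 2, 3, 4, 6, 8, 9, 12, 13, 16, 18} : Finset (ZMod 23)).card : ℂ) = 11 := by
    have : ({1, 2, 3, 4, 6, 8, 9, 12, 13, 16, 18} : Finset (ZMod 23)).card = 11 := by decide
    rw [this]; norm_num
  rw [hcard]
  set ζ : ℂ := ZMod.stdAddChar (1 : ZMod 23) with hζ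
  have hs : ∑ a ∈ ({1, 2, 3, 4, 6, 8, 9, 12, 13, 16, 18} : Finset (ZMod 23)),
      (ZMod.stdAddChar a : ℂ) = ζ + ζ ^ 2 + ζ ^ 3 + ζ ^ 4 + ζ ^ 6 + ζ ^ 8 + ζ ^ 9 + ζ ^ 12 +
        ζ ^ 13 + ζ ^ 16 + ζ ^ 18 := by
    rw [hζ]
    simp only [← char_pow]
    rw [Finset.sum_insert (by decide), Finset.sum_insert (by decide),
      Finset.sum_insert (by decide), Finset.sum_insert (by decide),
      Finset.sum_insert (by decide), Finset.sum_insert (by decide),
      Finset.sum_insert (by decide), Finset.sum_insert (by decide),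
      Finset.sum_insert (by decide), Finset.sum_insert (by decide), Finset.sum_singleton]
    push_cast
    ring
  have hg := geom_zero (N := 23) (by norm_num)
  rw [← hζ] at hg
  obtain ⟨h1, h2⟩ := of_sq (qr_sum ζ hg)
  rw [hs]
  set w := ζ + ζ ^ 2 + ζ ^ 3 + ζ ^ 4 + ζ ^ 6 + ζ ^ 8 + ζ ^ 9 + ζ ^ 12 +
        ζ ^ 13 + ζ ^ 16 + ζ ^ 18 with hw
  have e : (11 : ℂ)⁻¹ * w = ((11 : ℝ)⁻¹ : ℝ) * w := by push_cast; rfl
  rw [e, Complex.re_ofReal_mul, Complex.im_ofReal_mul, h1, abs_mul, h2]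
  constructor
  · norm_num
  · rw [abs_of_pos (by norm_num : (0 : ℝ) < 11⁻¹)]
    ring

lemma fc_conj (μ : Measure UnitAddCircle) (n : ℤ) :
    ∫ x, (fourier (-n) x : ℂ) ∂μ = conj (∫ x, (fourier n x : ℂ) ∂μ) := by
  rw [← integral_conj]
  simp_rw [fourier_neg]

lemma neg_fc (μ : Measure UnitAddCircle) (n : ℤ) :
    ∫ x, (fourier n x : ℂ) ∂(μ.map fun x => -x) = ∫ x, (fourier (-n) x : ℂ) ∂μ := by
  have hn : Measurable (fun x : UnitAddCircle => -x) := continuous_neg.measurable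
  rw [integral_map hn.aemeasurable (map_continuous _).aestronglyMeasurable]
  refine integral_congr_ae (Filter.Eventually.of_forall fun x => ?_)
  simp only [fourier_apply]
  congr 2
  simp

lemma V_conj {n : ℤ} {c : ℂ} (h : V n c) : V n (conj c) := by
  obtain ⟨μ, hμ, h2, h3, ⟨M, hM1, hM⟩, hc⟩ := h
  have : IsProbabilityMeasure (μ.map fun x : UnitAddCircle => -x) :=
    Measure.isProbabilityMeasure_map continuous_neg.measurable.aemeasurable
  refine ⟨μ.map fun x : UnitAddCircle => -x, this, neg_mp h2, neg_mp h3, ⟨M, hM1, fun m => ?_⟩, ?_⟩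
  · rw [neg_fc, ← mul_neg, hM]
  · rw [neg_fc, fc_conj, hc]

/-- lifting -/
lemma V_lift {n : ℕ} (h2n : ¬ 2 ∣ n) (h3n : ¬ 3 ∣ n) (hn0 : n ≠ 0) {c : ℂ} (h : V 1 c) :
    V n c := by
  classical
  obtain ⟨μ, hμ, h2, h3, ⟨M, hM1, hM⟩, hc⟩ := h
  have hn' : (n : ℤ) ≠ 0 := by exact_mod_cast hn0
  set f : ℤ → ℂ := fun m => if (n : ℤ) ∣ m then ∫ x, (fourier (m / n) x : ℂ) ∂μ else 0 with hf
  have hfm : ∀ m : ℤ, f (n * m) = ∫ x, (fourier m x : ℂ) ∂μ := by
    intro m
    simp only [hf]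
    rw [if_pos (dvd_mul_right _ _), Int.mul_ediv_cancel_left _ hn']
  have hf0 : f 0 = 1 := by
    have := hfm 0
    rw [mul_zero] at this
    rw [this]; simp
  -- positive definiteness
  have hpd : ∀ (N : ℕ) (a : ℕ → ℂ), 0 ≤ ∑ j ∈ range N, ∑ k ∈ range N,
      star (a k) * a j * f ((j : ℤ) - k) := by
    intro N a
    have hgroup : ∑ j ∈ range N, ∑ k ∈ range N, star (a k) * a j * f ((j : ℤ) - k) =
        ∑ l ∈ (range N).image (· % n), ∑ j ∈ range N with j % n = l, ∑ k ∈ range N with k % n = l,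
          star (a k) * a j * f ((j : ℤ) - k) := by
      rw [← Finset.sum_fiberwise_of_maps_to (s := range N) (t := (range N).image (· % n))
        (g := (· % n)) (fun i hi => mem_image_of_mem (· % n) hi)]
      refine sum_congr rfl fun l _ => sum_congr rfl fun j hj => ?_
      rw [sum_filter]
      refine sum_congr rfl fun k _ => ?_
      split_ifs with hk
      · rfl
      · have : f ((j : ℤ) - k) = 0 := by
          simp only [hf]
          rw [if_neg]
          intro hd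
          apply hk
          have e1 : (j : ℤ) % n = (k : ℤ) % n := (Int.modEq_iff_dvd.2 hd).symm
          have e2 : j % n = k % n := by exact_mod_cast e1
          rw [← e2]; exact (mem_filter.1 hj).2
        rw [this, mul_zero]
    rw [hgroup]
    refine sum_nonneg fun l _ => ?_
    refine le_of_le_of_eq (pd_fourier μ ((range N).filter fun j => j % n = l) a
      (fun j => ((j / n : ℕ) : ℤ))) ?_
    refine sum_congr rfl fun j hj => sum_congr rfl fun k hk => ?_
    congr 1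
    have e : (j : ℤ) - k = n * (((j / n : ℕ) : ℤ) - ((k / n : ℕ) : ℤ)) := by
      have h5 := Nat.div_add_mod j n
      have h6 := Nat.div_add_mod k n
      rw [(mem_filter.1 hj).2] at h5
      rw [(mem_filter.1 hk).2] at h6
      have h5' : (n : ℤ) * ((j / n : ℕ) : ℤ) + l = j := by exact_mod_cast h5
      have h6' : (n : ℤ) * ((k / n : ℕ) : ℤ) + l = k := by exact_mod_cast h6
      linarith
    rw [e, hfm]
  obtain ⟨ν, hν, hνf⟩ := herglotz (c := f) hf0 hpd
  have hmul : ∀ p : ℕ, p.Prime → ¬ p ∣ n → MeasurePreserving (fun x : UnitAddCircle => p • x) μ μ →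
      ∀ m : ℤ, f (m * p) = f m := by
    intro p hp hpn hpm m
    by_cases hd : (n : ℤ) ∣ m
    · obtain ⟨q, rfl⟩ := hd
      rw [mul_assoc, hfm, hfm, fc_mul hpm]
    · simp only [hf]
      rw [if_neg hd, if_neg]
      intro hd'
      apply hd
      have hcop : IsCoprime (n : ℤ) (p : ℤ) := by
        rw [Nat.isCoprime_iff_coprime]
        exact ((Nat.Prime.coprime_iff_not_dvd hp).2 hpn).symm
      exact hcop.dvd_of_dvd_mul_right hd'
  refine ⟨ν, hν, mp_nsmul hνf (fun m => ?_), mp_nsmul hνf (fun m => ?_), ⟨n * M, ?_, fun m => ?_⟩, ?_⟩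
  · exact hmul 2 Nat.prime_two h2n h2 m
  · exact hmul 3 Nat.prime_three h3n h3 m
  · exact Nat.one_le_iff_ne_zero.2 (mul_ne_zero hn0 (by omega))
  · rw [hνf]
    have : ((n * M : ℕ) : ℤ) * m = n * (M * m) := by push_cast; ring
    rw [this, hfm, hM]
  · rw [hνf]
    have := hfm 1
    rw [mul_one] at this
    rw [this, hc]

lemma V_nat {n : ℕ} (hn0 : n ≠ 0) {c : ℂ} (h : V 1 c) : V n c := by
  obtain ⟨a, n1, h1, e1⟩ := Nat.exists_eq_pow_mul_and_not_dvd hn0 2 (by norm_num)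
  have hn1 : n1 ≠ 0 := by rintro rfl; simp at h1
  obtain ⟨b, n2, h2, e2⟩ := Nat.exists_eq_pow_mul_and_not_dvd hn1 3 (by norm_num)
  have hn2 : n2 ≠ 0 := by rintro rfl; simp at h2
  have h12 : ¬ 2 ∣ n2 := fun h => h1 (e2 ▸ h.mul_left _)
  obtain ⟨μ, hμ, m2, m3, hM, hc⟩ := V_lift h12 h2 hn2 h
  refine ⟨μ, hμ, m2, m3, hM, ?_⟩
  rw [← hc, ← fc_pow m2 m3 a b (n2 : ℤ)]
  congr 1; ext x; congr 2
  rw [e1, e2]; push_cast; ring

lemma V_int {n : ℤ} (hn0 : n ≠ 0) {c : ℂ} (h : V 1 c) : V n c := by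
  rcases Int.natAbs_eq n with hn | hn
  · rw [hn]
    exact V_nat (by omega) h
  · obtain ⟨μ, hμ, m2, m3, hM, hc⟩ := V_nat (n := n.natAbs) (by omega) (V_conj h)
    refine ⟨μ, hμ, m2, m3, hM, ?_⟩
    rw [hn, fc_conj, hc]; simp

/-- the bounds for all coefficients -/
lemma bounds {μ : Measure UnitAddCircle} [IsProbabilityMeasure μ]
    (h2 : MeasurePreserving (fun x : UnitAddCircle => 2 • x) μ μ)
    (h3 : MeasurePreserving (fun x : UnitAddCircle => 3 • x) μ μ) (n : ℤ) :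
    |(∫ x, (fourier n x : ℂ) ∂μ).im| ≤ Real.sqrt 23 / 22 ∧
    -1 / 4 + 9 * Real.sqrt 23 / 46 * |(∫ x, (fourier n x : ℂ) ∂μ).im| ≤
      (∫ x, (fourier n x : ℂ) ∂μ).re := by
  have key : ∀ N : ℕ, |(∫ x, (fourier (N : ℤ) x : ℂ) ∂μ).im| ≤ Real.sqrt 23 / 22 ∧
      -1 / 4 + 9 * Real.sqrt 23 / 46 * |(∫ x, (fourier (N : ℤ) x : ℂ) ∂μ).im| ≤
      (∫ x, (fourier (N : ℤ) x : ℂ) ∂μ).re := by
    intro N
    have := prob_im (μ := μ) N
    have e : ∫ x, (fourier 1 x : ℂ) ∂(im μ N) = ∫ x, (fourier (N : ℤ) x : ℂ) ∂μ := by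
      unfold im
      rw [integral_map_nsmul, one_mul]
    have a2 : MeasurePreserving (fun x : UnitAddCircle => 2 • x) (im μ N) (im μ N) :=
      mp_im (c := fun n => ∫ x, (fourier n x : ℂ) ∂μ) (fun _ => rfl) N (p := 2) (fun m => by
        have := fc_mul h2 m
        rw [mul_comm] at this
        exact this)
    have a3 : MeasurePreserving (fun x : UnitAddCircle => 3 • x) (im μ N) (im μ N) :=
      mp_im (c := fun n => ∫ x, (fourier n x : ℂ) ∂μ) (fun _ => rfl) N (p := 3) (fun m => by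
        have := fc_mul h3 m
        rw [mul_comm] at this
        exact this)
    have := region a2 a3
    rwa [e] at this
  rcases Int.natAbs_eq n with h | h
  · rw [h]; exact key _
  · rw [h, fc_conj, Complex.conj_im, Complex.conj_re, abs_neg]
    exact key _

end Pool.Agent.Y253.TR
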