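import Pool.Agent.Y253.TR.Basic

/-!
# Traces with an atomless measure vanish off the translations
-/

set_option autoImplicit false

open MeasureTheory Filter Topology Finset
open scoped ComplexOrder ComplexConjugate

namespace Pool.Agent.Y253.TR

open Pool.Agent.W763.Tr Pool.Agent.TH654.FC

/-- the averages of a character tend to `0` in mean square -/
lemma avg_tendsto {μ : Measure UnitAddCircle} [IsProbabilityMeasure μ] (hat : ∀ x, μ {x} = 0)
    {D : ℤ} (hD : D ≠ 0) :
    Tendsto (fun L : ℕ => ∫ x, ‖(L : ℂ)⁻¹ * ∑ i ∈ range L, (fourier (D * i) x : ℂ)‖ ^ 2 ∂μ) atTop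
      (𝓝 0) := by
  have hcnt : ∀ᵐ x ∂μ, D • x ≠ 0 := by
    have hfin : {x : UnitAddCircle | D • x = 0}.Finite := by
      have : {x : UnitAddCircle | D • x = 0} = {x : UnitAddCircle | D.natAbs • x = 0} := by
        ext x
        simp only [Set.mem_ofPred_eq]
        rcases Int.natAbs_eq D with h | h
        · conv_lhs => rw [h, natCast_zsmul]
        · conv_lhs => rw [h, neg_smul, natCast_zsmul, neg_eq_zero]
      rw [this]
      exact AddCircle.finite_torsion 1 (Int.natAbs_pos.2 hD)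
    rw [ae_iff]
    have e : {x : UnitAddCircle | ¬ D • x ≠ 0} = {x : UnitAddCircle | D • x = 0} := by
      ext x; simp
    rw [e]
    have : NullSingletonClass μ := ⟨hat⟩
    exact hfin.measure_zero μ
  have h1 : Tendsto (fun L : ℕ => ∫ x, ‖(L : ℂ)⁻¹ * ∑ i ∈ range L, (fourier (D * i) x : ℂ)‖ ^ 2 ∂μ)
      atTop (𝓝 (∫ _, (0 : ℝ) ∂μ)) := by
    refine tendsto_integral_of_dominated_convergence (fun _ => (1 : ℝ)) (fun L => ?_)
      (integrable_const _) (fun L => Filter.Eventually.of_forall fun x => ?_) ?_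
    · exact (by fun_prop : Continuous fun x : UnitAddCircle =>
        ‖(L : ℂ)⁻¹ * ∑ i ∈ range L, (fourier (D * i) x : ℂ)‖ ^ 2).aestronglyMeasurable
    · have h2 : ‖(L : ℂ)⁻¹ * ∑ i ∈ range L, (fourier (D * i) x : ℂ)‖ ≤ 1 := by
        rw [norm_mul, norm_inv, Complex.norm_natCast]
        have h3 : ‖∑ i ∈ range L, (fourier (D * i) x : ℂ)‖ ≤ L := by
          calc ‖∑ i ∈ range L, (fourier (D * i) x : ℂ)‖
              ≤ ∑ i ∈ range L, ‖(fourier (D * i) x : ℂ)‖ := norm_sum_le _ _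
            _ = ∑ i ∈ range L, (1 : ℝ) := sum_congr rfl fun i _ => norm_fourier_eq _ _
            _ = L := by simp
        rcases Nat.eq_zero_or_pos L with h0 | h0
        · subst h0; simp
        · have : (0 : ℝ) < L := by exact_mod_cast h0
          rw [inv_mul_le_iff₀ this, mul_one]
          exact h3
      rw [Real.norm_of_nonneg (by positivity)]
      exact pow_le_one₀ (norm_nonneg _) h2
    · filter_upwards [hcnt] with x hx
      set z : ℂ := fourier D x with hz
      have hz1 : z ≠ 1 := by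
        intro h1
        apply hx
        rw [hz, fourier_eq_one, fourier_one] at h1
        have h2 : AddCircle.toCircle (D • x) = AddCircle.toCircle (0 : UnitAddCircle) := by
          rw [AddCircle.toCircle_zero]
          exact Circle.ext (by rw [h1]; simp)
        exact AddCircle.injective_toCircle (by norm_num) h2
      have hpow : ∀ i : ℕ, (fourier (D * i) x : ℂ) = z ^ i := by
        intro i
        rw [hz, fourier_apply, fourier_apply, mul_comm, mul_smul]
        simp only [AddCircle.toCircle_zsmul, zpow_natCast]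
        push_cast
        rfl
      have hnz : ‖z‖ = 1 := norm_fourier_eq _ _
      simp_rw [hpow]
      have hb : ∀ L : ℕ, ‖(L : ℂ)⁻¹ * ∑ i ∈ range L, z ^ i‖ ≤ (L : ℝ)⁻¹ * (2 / ‖z - 1‖) := by
        intro L
        rw [norm_mul, norm_inv, Complex.norm_natCast]
        refine mul_le_mul_of_nonneg_left ?_ (by positivity)
        rw [geom_sum_eq hz1, norm_div]
        refine div_le_div_of_nonneg_right ?_ (norm_nonneg _)
        refine (norm_sub_le _ _).trans ?_
        rw [norm_pow, hnz]; norm_num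
      have h0 : Tendsto (fun L : ℕ => (L : ℝ)⁻¹ * (2 / ‖z - 1‖)) atTop (𝓝 0) := by
        have := (tendsto_inv_atTop_nhds_zero_nat (𝕜 := ℝ)).mul_const (2 / ‖z - 1‖)
        rwa [zero_mul] at this
      have h4 : Tendsto (fun L : ℕ => ‖(L : ℂ)⁻¹ * ∑ i ∈ range L, z ^ i‖) atTop (𝓝 0) :=
        squeeze_zero (fun _ => norm_nonneg _) hb h0
      have := h4.pow 2
      rwa [zero_pow (by norm_num)] at this
  simpa using h1

/-- a Bessel inequality -/
lemma bessel_avg {H : Type*} [Group H] {φ : H → ℂ} (h : PD φ) (h1 : φ 1 = 1) (v : ℕ → H) {z : ℂ}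
    (hz : ∀ i, φ (v i) = z) (L : ℕ) :
    (L : ℝ) ^ 2 * ‖z‖ ^ 2 ≤ (∑ i ∈ range L, ∑ j ∈ range L, φ ((v j)⁻¹ * v i)).re := by
  set B : ℝ := (∑ i ∈ range L, ∑ j ∈ range L, φ ((v j)⁻¹ * v i)).re with hB
  have key : ∀ t : ℝ, 0 ≤ 1 - 2 * t * (L * ‖z‖ ^ 2) + t ^ 2 * ‖z‖ ^ 2 * B := by
    intro t
    have h2 := h.family (univ : Finset (Option (Fin L)))
      (fun o => o.elim 1 (fun i => v i)) (fun o => o.elim 1 (fun _ => -(t : ℂ) * star z))
    rw [Fintype.sum_option] at h2
    simp only [Fintype.sum_option, Option.elim_none, Option.elim_some, inv_one, one_mul, mul_one,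
      star_one, h1, hz, star_neg, star_mul, star_star] at h2
    have h3 : ∀ i : Fin L, φ (v i)⁻¹ = star z := fun i => by rw [h.inv h1, hz]
    simp only [h3, sum_const, card_univ, Fintype.card_fin, nsmul_eq_mul] at h2
    have h4 := (Complex.nonneg_iff.1 h2).1
    have hst : star (t : ℂ) = (t : ℂ) := by rw [Complex.star_def, Complex.conj_ofReal]
    have h5 : z * star z = ((‖z‖ ^ 2 : ℝ) : ℂ) := by
      rw [Complex.star_def, Complex.mul_conj, Complex.normSq_eq_norm_sq]
    have h6 : (∑ i : Fin L, ∑ j : Fin L, z * -(t : ℂ) * (-(t : ℂ) * star z) *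
        φ ((v j)⁻¹ * v i)) = ((t ^ 2 * ‖z‖ ^ 2 : ℝ) : ℂ) *
        ∑ i ∈ range L, ∑ j ∈ range L, φ ((v j)⁻¹ * v i) := by
      rw [← Fin.sum_univ_eq_sum_range (fun i => ∑ j ∈ range L, φ ((v j)⁻¹ * v i)) L, mul_sum]
      refine sum_congr rfl fun i _ => ?_
      rw [← Fin.sum_univ_eq_sum_range (fun j => φ ((v j)⁻¹ * v i)) L, mul_sum]
      refine sum_congr rfl fun j _ => ?_
      have : z * -(t : ℂ) * (-(t : ℂ) * star z) = (t : ℂ) ^ 2 * (z * star z) := by ring
      rw [this, h5]; push_cast; ring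
    refine le_of_le_of_eq h4 ?_
    rw [hst]
    rw [sum_add_distrib, h6]
    simp only [sum_const, card_univ, Fintype.card_fin, nsmul_eq_mul]
    have h7 : (1 + (L : ℂ) * (z * -(t : ℂ) * star z) + ((L : ℂ) * (-(t : ℂ) * star z * z) +
        ((t ^ 2 * ‖z‖ ^ 2 : ℝ) : ℂ) * ∑ i ∈ range L, ∑ j ∈ range L, φ ((v j)⁻¹ * v i))) =
        ((1 - 2 * t * (L * ‖z‖ ^ 2) : ℝ) : ℂ) + ((t ^ 2 * ‖z‖ ^ 2 : ℝ) : ℂ) *
          ∑ i ∈ range L, ∑ j ∈ range L, φ ((v j)⁻¹ * v i) := by
      have : (1 + (L : ℂ) * (z * -(t : ℂ) * star z) + ((L : ℂ) * (-(t : ℂ) * star z * z) +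
        ((t ^ 2 * ‖z‖ ^ 2 : ℝ) : ℂ) * ∑ i ∈ range L, ∑ j ∈ range L, φ ((v j)⁻¹ * v i))) =
        1 - 2 * (t : ℂ) * (L * (z * star z)) + ((t ^ 2 * ‖z‖ ^ 2 : ℝ) : ℂ) *
          ∑ i ∈ range L, ∑ j ∈ range L, φ ((v j)⁻¹ * v i) := by ring
      rw [this, h5]; push_cast; ring
    rw [h7, Complex.add_re, Complex.ofReal_re, Complex.re_ofReal_mul]
  by_cases hz0 : ‖z‖ = 0
  · have h2 := key 0
    have hB0 : 0 ≤ B := by
      have h3 := h.family (range L) v (fun _ => 1)
      simp only [star_one, one_mul] at h3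
      exact (Complex.nonneg_iff.1 h3).1
    rw [hz0]
    simpa using hB0
  · have hzp : 0 < ‖z‖ ^ 2 := by positivity
    have hB0 : 0 ≤ B := by
      have h3 := h.family (range L) v (fun _ => 1)
      simp only [star_one, one_mul] at h3
      exact (Complex.nonneg_iff.1 h3).1
    rcases hB0.eq_or_lt with hB1 | hB1
    · -- then `L = 0`
      rcases Nat.eq_zero_or_pos L with hL | hL
      · subst hL; simpa using hB0
      · exfalso
        have hLp : (0 : ℝ) < L := by exact_mod_cast hL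
        have h2 := key (1 / (L * ‖z‖ ^ 2))
        rw [← hB1] at h2
        have : 1 / (L * ‖z‖ ^ 2) * (L * ‖z‖ ^ 2) = 1 := by field_simp
        nlinarith
    · have h2 := key (L / B)
      have e : 1 - 2 * (L / B) * (L * ‖z‖ ^ 2) + (L / B) ^ 2 * ‖z‖ ^ 2 * B =
          1 - (L : ℝ) ^ 2 * ‖z‖ ^ 2 / B := by
        field_simp
        ring
      rw [e] at h2
      have h3 : (L : ℝ) ^ 2 * ‖z‖ ^ 2 / B ≤ 1 := by linarith
      rwa [div_le_one hB1] at h3

variable {G : Subgroup (Equiv.Perm ℚ)} {τ : ℤ → G} {φ : G → ℂ} {S6 : G} {μ : Measure UnitAddCircle}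

/-- **Vanishing off the translations.** -/
lemma vanish (D : Data G τ φ S6 μ) (hat : ∀ x, μ {x} = 0) {g : G}
    (hg : ¬ ∃ r : ℚ, ∀ x, (g : Equiv.Perm ℚ) x = x + r) : φ g = 0 := by
  have hprob := D.prob
  obtain ⟨a, b, r, ⟨n, k, hr⟩, hx⟩ := D.hform g
  set lam : ℚ := 2 ^ a * 3 ^ b with hlam
  have hne : lam ≠ 1 := by
    intro h
    exact hg ⟨r, fun x => by rw [hx, h, one_mul]⟩
  have hd : (1 - lam).num ≠ 0 := by
    rw [Rat.num_ne_zero, sub_ne_zero]
    exact fun e => hne e.symm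
  have hnum : (1 - lam) * (1 - lam).den = (1 - lam).num := Rat.mul_den_eq_num _
  set v : ℤ := ((1 - lam).den : ℤ) with hv
  set E : ℤ := (1 - lam).num with hE
  have hnum' : (1 - lam) * (v : ℚ) = E := by
    rw [hv]; push_cast; exact hnum
  have hconj : ∀ i : ℤ, φ (τ (E * i) * g) = φ g := by
    intro i
    have e : τ (v * i) * g * (τ (v * i))⁻¹ = τ (E * i) * g := by
      rw [mul_inv_eq_iff_eq_mul]
      apply Subtype.ext
      apply Equiv.ext
      intro x
      simp only [Subgroup.coe_mul, Equiv.Perm.mul_apply, D.hτ, hx]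
      push_cast
      rw [← hnum']; ring
    rw [← e, D.hcl]
  have hinner : ∀ i j : ℕ, φ ((τ (E * (j : ℤ)) * g)⁻¹ * (τ (E * (i : ℤ)) * g)) =
      ∫ x, (fourier (E * i - E * j) x : ℂ) ∂μ := by
    intro i j
    have e : (τ (E * (j : ℤ)) * g)⁻¹ * (τ (E * (i : ℤ)) * g) =
        g⁻¹ * τ (E * i - E * j) * (g⁻¹)⁻¹ := by
      rw [mul_inv_rev, tau_inv D.hτ, inv_inv]
      have : τ (E * i - E * j) = τ (-(E * (j : ℤ))) * τ (E * (i : ℤ)) := by
        rw [tau_add D.hτ]; congr 1; ring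
      rw [this]
      simp only [mul_assoc]
    rw [e, D.hcl, D.hμ]
  have hbes := fun L : ℕ => bessel_avg D.hpd D.h1 (fun i : ℕ => τ (E * i) * g)
    (fun i => hconj i) L
  simp only [hinner] at hbes
  -- the double sum is a square
  have hsq : ∀ L : ℕ, (∑ i ∈ range L, ∑ j ∈ range L, ∫ x, (fourier (E * i - E * j) x : ℂ) ∂μ).re =
      (L : ℝ) ^ 2 * ∫ x, ‖(L : ℂ)⁻¹ * ∑ i ∈ range L, (fourier (E * i) x : ℂ)‖ ^ 2 ∂μ := by
    intro L
    have hi : ∀ m : ℤ, Integrable (fun x : UnitAddCircle => (fourier m x : ℂ)) μ := fun m =>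
      (by fun_prop : Continuous (fun x : UnitAddCircle =>
        (fourier m x : ℂ))).integrable_of_hasCompactSupport (HasCompactSupport.of_compactSpace _)
    have h5 : ∑ i ∈ range L, ∑ j ∈ range L, ∫ x, (fourier (E * i - E * j) x : ℂ) ∂μ =
        ∫ x, ((‖∑ i ∈ range L, (fourier (E * i) x : ℂ)‖ ^ 2 : ℝ) : ℂ) ∂μ := by
      have h6 : ∀ x : UnitAddCircle, ((‖∑ i ∈ range L, (fourier (E * i) x : ℂ)‖ ^ 2 : ℝ) : ℂ) =
          ∑ i ∈ range L, ∑ j ∈ range L, (fourier (E * i - E * j) x : ℂ) := by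
        intro x
        have e1 : ((‖∑ i ∈ range L, (fourier (E * i) x : ℂ)‖ ^ 2 : ℝ) : ℂ) =
            (∑ i ∈ range L, (fourier (E * i) x : ℂ)) *
              conj (∑ i ∈ range L, (fourier (E * i) x : ℂ)) := by
          rw [Complex.mul_conj, Complex.normSq_eq_norm_sq]
        rw [e1, map_sum, sum_mul]
        refine sum_congr rfl fun i _ => ?_
        rw [mul_sum]
        refine sum_congr rfl fun j _ => ?_
        rw [← fourier_neg, ← fourier_add]
        congr 1
      simp_rw [h6]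
      rw [integral_finsetSum _ fun i _ => integrable_finsetSum _ fun j _ => hi _]
      refine sum_congr rfl fun i _ => ?_
      rw [integral_finsetSum _ fun j _ => hi _]
    rw [h5, integral_complex_ofReal, Complex.ofReal_re]
    rcases Nat.eq_zero_or_pos L with hL | hL
    · subst hL; simp
    · have hLp : (0 : ℝ) < L := by exact_mod_cast hL
      rw [← integral_const_mul]
      refine integral_congr_ae (Filter.Eventually.of_forall fun x => ?_)
      simp only
      rw [norm_mul, norm_inv, Complex.norm_natCast, mul_pow, inv_pow, ← mul_assoc,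
        mul_inv_cancel₀ (by positivity), one_mul]
  have hle : ∀ L : ℕ, 1 ≤ L → ‖φ g‖ ^ 2 ≤
      ∫ x, ‖(L : ℂ)⁻¹ * ∑ i ∈ range L, (fourier (E * i) x : ℂ)‖ ^ 2 ∂μ := by
    intro L hL
    have hLp : (0 : ℝ) < (L : ℝ) ^ 2 := by
      have : (0 : ℝ) < L := by exact_mod_cast hL
      positivity
    have h5 := hbes L
    rw [hsq] at h5
    exact le_of_mul_le_mul_left h5 hLp
  have hlim := avg_tendsto (μ := μ) hat hd
  have h0 : ‖φ g‖ ^ 2 ≤ 0 :=
    ge_of_tendsto hlim (by filter_upwards [eventually_ge_atTop 1] with L hL using hle L hL)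
  have : ‖φ g‖ = 0 := by
    have h6 := norm_nonneg (φ g)
    nlinarith
  exact norm_eq_zero.1 this

end Pool.Agent.Y253.TR
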